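import Mathlib
import Pool.Agent.H317R3.Free
import Pool.Agent.H317R3.Poly

/-!
# The hierarchy of words: long periodic words followed by short flexible ones
-/

set_option autoImplicit false

namespace Pool.Agent.W681.RC

open Pool.Agent.H317R3

variable {α : Type}

/-- every length `n ≥ H` is the length of a concatenation of words of `W` -/
def Fl (W : Set (List α)) (H : ℕ) : Prop := ∀ n, H ≤ n → ∃ v ∈ H317R3.Star W, v.length = n

lemma fl_zero [Inhabited α] : Fl {x : List α | ∃ a : α, x = [a]} 0 := by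
  intro n _
  induction n with
  | zero => exact ⟨[], star_nil _, rfl⟩
  | succ n ih =>
    obtain ⟨v, hv, hl⟩ := ih (by omega)
    refine ⟨v ++ [default], star_append hv (star_of_mem ⟨default, rfl⟩), ?_⟩
    simp [hl]

lemma fl_many {W : Set (List α)} {H N : ℕ} (hF : Fl W H) (u : List α) (hNH : H ≤ N) (m : ℕ) :
    ∀ n, m * (u.length + N) ≤ n → n ≤ m * (u.length + 3 * N) →
      ∃ v ∈ H317R3.Star (nextW W u N), v.length = n := by
  induction m with
  | zero =>
    intro n _ h2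
    exact ⟨[], star_nil _, by simp at h2; simp [h2]⟩
  | succ m ih =>
    intro n h1 h2
    rw [Nat.succ_mul] at h1 h2
    obtain ⟨l, hl1, hl2, hl3, hl4⟩ : ∃ l, u.length + N ≤ l ∧ l ≤ u.length + 3 * N ∧
        m * (u.length + N) + l ≤ n ∧ n ≤ m * (u.length + 3 * N) + l := by
      by_cases h : n ≤ m * (u.length + N) + (u.length + 3 * N)
      · have h3 : m * (u.length + N) ≤ m * (u.length + 3 * N) := Nat.mul_le_mul_left _ (by omega)
        exact ⟨n - m * (u.length + N), by omega, by omega, by omega, by omega⟩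
      · exact ⟨u.length + 3 * N, by omega, le_rfl, by omega, h2⟩
    obtain ⟨v, hv, hvl⟩ := hF (l - u.length) (by omega)
    obtain ⟨r, hr, hrl⟩ := ih (n - l) (by omega) (by omega)
    refine ⟨(u ++ v) ++ r, star_append (star_of_mem ⟨v, hv, rfl, by omega, by omega⟩) hr, ?_⟩
    rw [List.length_append, List.length_append]
    omega

lemma fl_step {W : Set (List α)} {H N : ℕ} (hF : Fl W H) (u : List α) (hNH : H ≤ N)
    (hN : 1 ≤ N) : Fl (nextW W u N) ((u.length + N) * (u.length + N)) := by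
  intro n hn
  set L := u.length + N with hL
  have hL1 : 1 ≤ L := by omega
  have h1 : n / L * L ≤ n := Nat.div_mul_le_self n L
  have h2 : n < (n / L + 1) * L := by
    rw [mul_comm]
    exact Nat.lt_mul_div_succ n (by omega)
  have h3 : L ≤ n / L := (Nat.le_div_iff_mul_le (by omega)).2 hn
  apply fl_many hF u hNH (n / L) n h1
  have h4 : u.length + 3 * N = L + 2 * N := by omega
  rw [h4]
  have h5 : n / L * (2 * N) ≥ n / L * 1 := Nat.mul_le_mul_left _ (by omega)
  nlinarith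

lemma exists_len {Q : ℕ} (hQ : 1 ≤ Q) (H c e : ℕ) : ∃ r, H ≤ r ∧ c + r ≡ e [MOD Q] := by
  refine ⟨H + (e + (Q - 1) * (c + H)), by omega, ?_⟩
  obtain ⟨q, rfl⟩ : ∃ q, Q = q + 1 := ⟨Q - 1, by omega⟩
  have h1 : c + (H + (e + (q + 1 - 1) * (c + H))) = e + (q + 1) * (c + H) := by
    rw [Nat.add_sub_cancel]
    ring
  rw [h1]
  show (e + (q + 1) * (c + H)) % (q + 1) = e % (q + 1)
  simp [Nat.add_mod]

/-- every word of `W` occurs in `x` at every residue modulo `Q` -/
def AllRes (W : Set (List α)) (Q : ℕ) (x : List α) : Prop :=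
  ∀ w ∈ W, ∀ e : ℕ, ∃ s t, x = s ++ w ++ t ∧ s.length ≡ e [MOD Q]

lemma exists_res_list {W : Set (List α)} {H : ℕ} (hF : Fl W H) {Q : ℕ} (hQ : 1 ≤ Q)
    (T : List (List α × ℕ)) : (∀ p ∈ T, p.1 ∈ W) → ∃ x ∈ H317R3.Star W, ∀ p ∈ T,
      ∃ s t, x = s ++ p.1 ++ t ∧ s.length ≡ p.2 [MOD Q] := by
  induction T with
  | nil => intro _; exact ⟨[], star_nil _, by simp⟩
  | cons p T ih =>
    intro hT
    obtain ⟨x, hx, hxT⟩ := ih fun q hq => hT q (by simp [hq])
    obtain ⟨n, hn, hres⟩ := exists_len hQ H x.length p.2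
    obtain ⟨r, hr, hrl⟩ := hF n hn
    refine ⟨x ++ r ++ p.1, star_append (star_append hx hr) (star_of_mem (hT p (by simp))), ?_⟩
    intro q hq
    rcases List.mem_cons.1 hq with rfl | hq
    · exact ⟨x ++ r, [], by simp, by rw [List.length_append, hrl]; exact hres⟩
    · obtain ⟨s, t, h1, h2⟩ := hxT q hq
      exact ⟨s, t ++ r ++ p.1, by rw [h1]; simp, h2⟩

lemma exists_res [Finite α] {W : Set (List α)} {H B : ℕ} (hB : ∀ w ∈ W, w.length ≤ B)
    (hF : Fl W H) {Q : ℕ} (hQ : 1 ≤ Q) :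
    ∃ x ∈ H317R3.Star W, 1 ≤ x.length ∧ Q ∣ x.length ∧ AllRes W Q x := by
  classical
  have hfin : W.Finite := (List.finite_length_le α B).subset hB
  obtain ⟨x, hx, hxT⟩ := exists_res_list hF hQ (hfin.toFinset ×ˢ Finset.range Q).toList (by
    intro p hp
    simp at hp
    exact hp.1)
  obtain ⟨n, hn, hres⟩ := exists_len hQ (H + 1) x.length 0
  obtain ⟨r, hr, hrl⟩ := hF n (by omega)
  refine ⟨x ++ r, star_append hx hr, ?_, ?_, ?_⟩
  · rw [List.length_append]; omega
  · rw [List.length_append, hrl]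
    exact (Nat.modEq_zero_iff_dvd).1 hres
  · intro w hw e
    obtain ⟨s, t, h1, h2⟩ := hxT (w, e % Q) (by
      simp only [Finset.mem_toList, Finset.mem_product, Set.Finite.mem_toFinset, Finset.mem_range]
      exact ⟨hw, Nat.mod_lt _ hQ⟩)
    refine ⟨s, t ++ r, by rw [h1]; simp, h2.trans (Nat.mod_modEq _ _)⟩

/-- data of one level -/
structure Lv (α : Type) where
  W : Set (List α)
  H : ℕ
  B : ℕ
  E : ℕ
  L : ℕ
  F : List α
  G : List α
  k : ℕ
  N : ℕ
  m : ℕ
  E' : ℕ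

/-- the long word of the level -/
def Lv.X (P : Lv α) : List α := P.F ++ (List.replicate P.k P.G).flatten

lemma Lv.X_length (P : Lv α) : P.X.length = P.F.length + P.k * P.G.length := by
  unfold Lv.X
  rw [List.length_append, List.length_flatten]
  simp

structure Core (W : Set (List α)) (H B : ℕ) : Prop where
  ne : W.Nonempty
  bd : ∀ w ∈ W, w.length ≤ B
  fill : Fl W H

structure Good (Q : ℕ) (P : Lv α) : Prop where
  core : Core P.W P.H P.B
  F_mem : P.F ∈ H317R3.Star P.W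
  G_mem : P.G ∈ H317R3.Star P.W
  G_pos : 1 ≤ P.G.length
  G_dvd : Q ∣ P.G.length
  G_res : AllRes P.W Q P.G
  F_res : AllRes P.W (2 * P.G.length) P.F
  Em : P.E ≤ P.m
  mE : P.m + P.B + P.H + 1 ≤ P.E'
  N_ge : P.L + P.E' + P.H + P.m + P.B + 1 ≤ P.N
  k_ge : 2 * P.F.length + 2 * P.G.length + 6 * P.N + 2 ≤ P.k * P.G.length

lemma exists_good [Finite α] {W : Set (List α)} {H B : ℕ} (h : Core W H B) (E L : ℕ)
    {Q : ℕ} (hQ : 1 ≤ Q) : ∃ P : Lv α, Good Q P ∧ P.W = W ∧ P.H = H ∧ P.B = B ∧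
      P.E = E ∧ P.L = L ∧ P.E' = E + B + H + 1 := by
  obtain ⟨G, hG1, hG2, hG3, hG4⟩ := exists_res h.bd h.fill hQ
  obtain ⟨F, hF1, -, -, hF4⟩ := exists_res h.bd h.fill (Q := 2 * G.length) (by omega)
  refine ⟨⟨W, H, B, E, L, F, G,
    2 * F.length + 2 * G.length + 6 * (L + (E + B + H + 1) + H + E + B + 1) + 2,
    L + (E + B + H + 1) + H + E + B + 1, E, E + B + H + 1⟩, ?_, rfl, rfl, rfl, rfl, rfl, rfl⟩
  refine ⟨h, hF1, hG1, hG2, hG3, hG4, hF4, le_rfl, le_rfl, le_rfl, ?_⟩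
  exact Nat.le_mul_of_pos_right _ hG2

/-- `P'` is a level following the level `P` -/
structure Nx (P P' : Lv α) : Prop where
  W : P'.W = nextW P.W P.X P.N
  H : P'.H = (P.X.length + P.N) * (P.X.length + P.N)
  B : P'.B = P.X.length + 3 * P.N
  E : P'.E = P.E'
  L : P'.L = P.X.length + P.N

lemma core_next {Q : ℕ} {P : Lv α} (h : Good Q P) :
    Core (nextW P.W P.X P.N) ((P.X.length + P.N) * (P.X.length + P.N))
      (P.X.length + 3 * P.N) := by
  have hN := h.N_ge
  refine ⟨?_, ?_, fl_step h.core.fill P.X (by omega) (by omega)⟩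
  · obtain ⟨v, hv, hvl⟩ := h.core.fill P.N (by omega)
    exact ⟨P.X ++ v, v, hv, rfl, by omega, by omega⟩
  · rintro x ⟨v, hv, rfl, h1, h2⟩
    rw [List.length_append]
    omega

lemma exists_seq (α : Type) [Finite α] [Inhabited α] : ∃ P : ℕ → Lv α,
    (∀ j, Good (j + 1).factorial (P j)) ∧ (∀ j, Nx (P j) (P (j + 1))) ∧
    (P 0).W = {x : List α | ∃ a : α, x = [a]} := by
  classical
  have hstep : ∀ (j : ℕ) (P : {P : Lv α // Good (j + 1).factorial P}),
      ∃ P' : {P : Lv α // Good (j + 1 + 1).factorial P}, Nx P.1 P'.1 := by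
    intro j P
    obtain ⟨P', h, h1, h2, h3, h4, h5, -⟩ := exists_good (core_next P.2) P.1.E'
      (P.1.X.length + P.1.N) (Q := (j + 1 + 1).factorial) (Nat.factorial_pos _)
    exact ⟨⟨P', h⟩, h1, h2, h3, h4, h5⟩
  choose f hf using hstep
  have h0 : Core {x : List α | ∃ a : α, x = [a]} 0 1 := by
    refine ⟨⟨[default], default, rfl⟩, ?_, fl_zero⟩
    rintro w ⟨a, rfl⟩
    simp
  obtain ⟨P0, hP0, hW, -⟩ := exists_good h0 0 0 (Q := (0 + 1).factorial) (Nat.factorial_pos _)
  let R : ∀ j : ℕ, {P : Lv α // Good (j + 1).factorial P} := fun j =>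
    Nat.rec ⟨P0, hP0⟩ (fun j P => f j P) j
  exact ⟨fun j => (R j).1, fun j => (R j).2, fun j => hf j (R j), hW⟩

section seq

variable {P : ℕ → Lv α} (hG : ∀ j, Good (j + 1).factorial (P j))
  (hN : ∀ j, Nx (P j) (P (j + 1)))

include hG in
lemma X_mem (j : ℕ) : (P j).X ∈ H317R3.Star (P j).W := by
  refine star_append (hG j).F_mem ?_
  have : ∀ k : ℕ, (List.replicate k (P j).G).flatten ∈ H317R3.Star (P j).W := by
    intro k
    induction k with
    | zero => simpa using star_nil _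
    | succ k ih =>
      rw [List.replicate_succ, List.flatten_cons]
      exact star_append (hG j).G_mem ih
  exact this _

include hG in
lemma inf_X (j : ℕ) : ∀ w ∈ (P j).W, w <:+: (P j).X := by
  intro w hw
  obtain ⟨s, t, h, -⟩ := (hG j).F_res w hw 0
  refine ⟨s, t ++ (List.replicate (P j).k (P j).G).flatten, ?_⟩
  unfold Lv.X
  rw [h]
  simp

include hG hN

lemma m_lt (j : ℕ) : (P j).m + 1 ≤ (P (j + 1)).m := by
  have h1 := (hG j).mE
  have h2 := (hG (j + 1)).Em
  rw [(hN j).E] at h2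
  omega

lemma m_mono {i j : ℕ} (h : i ≤ j) : (P i).m ≤ (P j).m := by
  induction h with
  | refl => exact le_rfl
  | @step j _ ih =>
    have := m_lt hG hN j
    show (P i).m ≤ (P (j + 1)).m
    omega

lemma m_strict {i j : ℕ} (h : i < j) : (P i).m < (P j).m := by
  have h1 := m_lt hG hN i
  have h2 := m_mono hG hN (show i + 1 ≤ j by omega)
  omega

lemma m_ge (j : ℕ) : j ≤ (P j).m := by
  induction j with
  | zero => omega
  | succ j ih => have := m_lt hG hN j; omega

lemma E_mono {i j : ℕ} (h : i ≤ j) : (P i).E ≤ (P j).E := by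
  induction h with
  | refl => exact le_rfl
  | @step j _ ih =>
    have h1 := (hG j).mE
    have h2 := (hG j).Em
    have h3 := (hN j).E
    show (P i).E ≤ (P (j + 1)).E
    omega

omit hN in
lemma W_ne (j : ℕ) : (P j).W.Nonempty := (hG j).core.ne

lemma step_infix {j : ℕ} {w : List α} (hw : w ∈ (P j).W) :
    ∃ w' ∈ (P (j + 1)).W, w <:+: w' := by
  obtain ⟨x, hx⟩ := W_ne hG (j + 1)
  have hx' := hx
  rw [(hN j).W] at hx'
  obtain ⟨v, _, rfl, _⟩ := hx'
  exact ⟨_, hx, (inf_X hG j w hw).trans (List.prefix_append _ _).isInfix⟩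

lemma infix_up {i j : ℕ} (h : i ≤ j) : ∀ w ∈ (P i).W, ∃ w' ∈ (P j).W, w <:+: w' := by
  induction h with
  | refl => exact fun w hw => ⟨w, hw, List.infix_rfl⟩
  | step _ ih =>
    intro w hw
    obtain ⟨w', hw', h1⟩ := ih w hw
    obtain ⟨w'', hw'', h2⟩ := step_infix hG hN hw'
    exact ⟨w'', hw'', h1.trans h2⟩

lemma star_down {i j : ℕ} (h : i ≤ j) : (P j).W ⊆ H317R3.Star (P i).W := by
  induction h with
  | refl => exact fun w hw => star_of_mem hw
  | @step j _ ih =>
    have : (P (j + 1)).W ⊆ H317R3.Star (P j).W := by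
      intro x hx
      rw [(hN j).W] at hx
      obtain ⟨v, hv, rfl, _⟩ := hx
      exact star_append (X_mem hG j) hv
    exact this.trans (star_subset ih)

end seq

/-- the language of the hierarchy -/
def lang (P : ℕ → Lv α) : Set (List α) := {x | ∃ j, ∃ w ∈ (P j).W, x <:+: w}

lemma lang_infix {P : ℕ → Lv α} {x y : List α} (hx : x ∈ lang P) (hy : y <:+: x) :
    y ∈ lang P := by
  obtain ⟨j, w, hw, h⟩ := hx
  exact ⟨j, w, hw, hy.trans h⟩

section seq2

variable {P : ℕ → Lv α} (hG : ∀ j, Good (j + 1).factorial (P j))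
  (hN : ∀ j, Nx (P j) (P (j + 1)))

include hG hN

lemma lang_star {x : List α} (hx : x ∈ lang P) (k : ℕ) : ∃ z ∈ H317R3.Star (P k).W, x <:+: z := by
  obtain ⟨i, w, hw, h⟩ := hx
  rcases le_total i k with h1 | h1
  · obtain ⟨w', hw', h2⟩ := infix_up hG hN h1 w hw
    exact ⟨w', star_of_mem hw', h.trans h2⟩
  · exact ⟨w, star_down hG hN h1 hw, h⟩

lemma lang_up {x : List α} (hx : x ∈ lang P) : ∃ i, ∀ j, i ≤ j → ∃ w ∈ (P j).W, x <:+: w := by
  obtain ⟨i, w, hw, h⟩ := hx
  refine ⟨i, fun j hj => ?_⟩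
  obtain ⟨w', hw', h2⟩ := infix_up hG hN hj w hw
  exact ⟨w', hw', h.trans h2⟩

/-- a long word of the language contains the long word of level `j` -/
lemma lang_X {x : List α} (hx : x ∈ lang P) (j : ℕ) (hl : 2 * (P (j + 1)).B + 1 ≤ x.length) :
    (P j).X <:+: x := by
  obtain ⟨z, hz, hxz⟩ := lang_star hG hN hx (j + 1)
  obtain ⟨w2, hw2, h2⟩ := infix_full' (hG (j + 1)).core.bd hl hz hxz
  rw [(hN j).W] at hw2
  obtain ⟨v, _, rfl, _⟩ := hw2
  exact (List.prefix_append _ _).isInfix.trans h2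

end seq2

end Pool.Agent.W681.RC
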