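import Mathlib
import Pool.Agent.W681.RC.Levels

/-!
# The subshift: common futures and joint universality along `(2 n, n)`
-/

set_option autoImplicit false

namespace Pool.Agent.W681.RC

open Pool.Agent.H317R3

variable {α : Type}

/-- the letter at `x` of the word `v` placed so that it ends at `e` -/
def pl (v : List α) (e x : ℤ) : Option α :=
  if e - v.length ≤ x then v[(x - (e - v.length)).toNat]? else none

lemma pl_left (l v : List α) {e x : ℤ} (h : e - v.length ≤ x) :
    pl (l ++ v) e x = pl v e x := by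
  unfold pl
  rw [if_pos h, if_pos (by rw [List.length_append]; push_cast; omega)]
  rw [List.getElem?_append_right (by rw [List.length_append]; push_cast; omega)]
  congr 1
  rw [List.length_append]
  push_cast
  omega

lemma pl_right (v r : List α) {e x : ℤ} (h : x < e) :
    pl (v ++ r) (e + r.length) x = pl v e x := by
  unfold pl
  have h1 : (e + r.length - ((v ++ r).length : ℕ) : ℤ) = e - v.length := by
    rw [List.length_append]; push_cast; ring
  rw [h1]
  by_cases h2 : e - v.length ≤ x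
  · rw [if_pos h2, if_pos h2, List.getElem?_append_left (by omega)]
  · rw [if_neg h2, if_neg h2]

lemma pl_word (y : ℤ → α) (a : ℤ) (n : ℕ) {x : ℤ} (h1 : a ≤ x) (h2 : x < a + n) :
    pl (word y a n) (a + n) x = some (y x) := by
  unfold pl
  rw [word_length, if_pos (by omega), word_get _ _ _ _ (by omega)]
  congr 2
  omega

section seq

variable {P : ℕ → Lv α} (hG : ∀ j, Good (j + 1).factorial (P j))
  (hN : ∀ j, Nx (P j) (P (j + 1)))

include hG hN

lemma L_ge (i : ℕ) : (P (i + 1)).E + (P i).m ≤ (P (i + 1)).L := by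
  have h1 := (hG i).N_ge
  rw [(hN i).E, (hN i).L]
  omega

lemma E_gt (i : ℕ) : (P i).m + 1 ≤ (P (i + 1)).E := by
  have h1 := (hG i).mE
  rw [(hN i).E]
  omega

lemma ext_base (k : ℕ) {y : ℤ → α}
    (hy : word y (-((P k).m : ℤ)) (2 * (P k).m + 1) ∈ lang P) :
    ∃ v ∈ (P (k + 1)).W, v.length = (P (k + 1)).L ∧
      ∀ x : ℤ, |x| ≤ (P k).m → pl v (P (k + 1)).E x = some (y x) := by
  obtain ⟨z, hz, hyz⟩ := lang_star hG hN hy k
  obtain ⟨s1, s2, hs, h1, h2⟩ := trim (hG k).core.bd hz hyz
  have hNk := (hG k).N_ge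
  have hmE := (hG k).mE
  obtain ⟨r, hr, hrl⟩ := (hG k).core.fill ((P k).E' - ((P k).m + 1 + s2.length)) (by omega)
  obtain ⟨l, hl, hll⟩ := (hG k).core.fill ((P k).N - (s1.length + (P k).m + (P k).E')) (by omega)
  have hlen : (l ++ (s1 ++ word y (-((P k).m : ℤ)) (2 * (P k).m + 1) ++ s2 ++ r)).length =
      (P k).N := by
    simp only [List.length_append, word_length]
    omega
  refine ⟨(P k).X ++ (l ++ (s1 ++ word y (-((P k).m : ℤ)) (2 * (P k).m + 1) ++ s2 ++ r)),
    ?_, ?_, ?_⟩
  · rw [(hN k).W]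
    exact ⟨_, star_append hl (star_append hs hr), rfl, by omega, by omega⟩
  · rw [List.length_append, hlen, (hN k).L]
  · intro x hx
    have hx' := abs_le.1 hx
    rw [(hN k).E]
    have e1 : (P k).X ++ (l ++ (s1 ++ word y (-((P k).m : ℤ)) (2 * (P k).m + 1) ++ s2 ++ r)) =
        ((P k).X ++ l ++ s1) ++ (word y (-((P k).m : ℤ)) (2 * (P k).m + 1) ++ (s2 ++ r)) := by
      simp
    have e2 : ((P k).E' : ℤ) = (-((P k).m : ℤ) + ((2 * (P k).m + 1 : ℕ) : ℤ)) +
        ((s2 ++ r).length : ℕ) := by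
      rw [List.length_append, hrl]
      push_cast
      omega
    rw [e1, pl_left _ _ (by
      simp only [List.length_append, word_length, hrl]
      push_cast
      omega), e2, pl_right _ _ (by push_cast; omega), pl_word _ _ _ (by omega) (by omega)]

lemma ext_step (i : ℕ) {v v' : List α} (hv : v ∈ (P i).W) (hv' : v' ∈ (P i).W)
    (hl : v.length = (P i).L) (hl' : v'.length = (P i).L) :
    ∃ u ∈ (P (i + 1)).W, ∃ u' ∈ (P (i + 1)).W, u.length = (P (i + 1)).L ∧
      u'.length = (P (i + 1)).L ∧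
      (∀ x : ℤ, ((P i).E : ℤ) - (P i).L ≤ x → x < (P i).E →
        pl u (P (i + 1)).E x = pl v (P i).E x ∧ pl u' (P (i + 1)).E x = pl v' (P i).E x) ∧
      ∀ x : ℤ, ((P i).E : ℤ) ≤ x → pl u (P (i + 1)).E x = pl u' (P (i + 1)).E x := by
  have hNk := (hG i).N_ge
  have hmE := (hG i).mE
  have hEm := (hG i).Em
  obtain ⟨r, hr, hrl⟩ := (hG i).core.fill ((P i).E' - (P i).E) (by omega)
  obtain ⟨l, hlm, hll⟩ := (hG i).core.fill ((P i).N - ((P i).L + ((P i).E' - (P i).E)))
    (by omega)
  have hlen : ∀ v : List α, v.length = (P i).L → (l ++ (v ++ r)).length = (P i).N := by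
    intro v hv
    rw [List.length_append, List.length_append]
    omega
  have key1 : ∀ v : List α, v.length = (P i).L → ∀ x : ℤ, ((P i).E : ℤ) - (P i).L ≤ x →
      x < (P i).E → pl ((P i).X ++ (l ++ (v ++ r))) (P (i + 1)).E x = pl v (P i).E x := by
    intro v hv x h1 h2
    have e1 : (P i).X ++ (l ++ (v ++ r)) = ((P i).X ++ l) ++ (v ++ r) := by simp
    have e2 : ((P (i + 1)).E : ℤ) = (P i).E + (r.length : ℕ) := by
      rw [(hN i).E, hrl]
      omega
    rw [e1, pl_left _ _ (by rw [List.length_append, e2]; push_cast; omega), e2,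
      pl_right _ _ h2]
  have key2 : ∀ v : List α, v.length = (P i).L → ∀ x : ℤ, ((P i).E : ℤ) ≤ x →
      pl ((P i).X ++ (l ++ (v ++ r))) (P (i + 1)).E x = pl r (P (i + 1)).E x := by
    intro v hv x h1
    have e1 : (P i).X ++ (l ++ (v ++ r)) = ((P i).X ++ l ++ v) ++ r := by simp
    have e2 : ((P (i + 1)).E : ℤ) = (P i).E + (r.length : ℕ) := by
      rw [(hN i).E, hrl]
      omega
    rw [e1, pl_left _ _ (by rw [e2]; omega)]
  refine ⟨(P i).X ++ (l ++ (v ++ r)), ?_, (P i).X ++ (l ++ (v' ++ r)), ?_, ?_, ?_, ?_, ?_⟩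
  · rw [(hN i).W]
    have := hlen v hl
    exact ⟨_, star_append hlm (star_append (star_of_mem hv) hr), rfl, by omega, by omega⟩
  · rw [(hN i).W]
    have := hlen v' hl'
    exact ⟨_, star_append hlm (star_append (star_of_mem hv') hr), rfl, by omega, by omega⟩
  · rw [List.length_append, hlen v hl, (hN i).L]
  · rw [List.length_append, hlen v' hl', (hN i).L]
  · exact fun x h1 h2 => ⟨key1 v hl x h1 h2, key1 v' hl' x h1 h2⟩
  · intro x h1
    rw [key2 v hl x h1, key2 v' hl' x h1]

lemma claim (k : ℕ) {y y' : ℤ → α}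
    (hy : word y (-((P k).m : ℤ)) (2 * (P k).m + 1) ∈ lang P)
    (hy' : word y' (-((P k).m : ℤ)) (2 * (P k).m + 1) ∈ lang P) (t : ℕ) :
    ∃ u ∈ (P (k + 1 + t)).W, ∃ u' ∈ (P (k + 1 + t)).W, u.length = (P (k + 1 + t)).L ∧
      u'.length = (P (k + 1 + t)).L ∧
      (∀ x : ℤ, |x| ≤ (P k).m → pl u (P (k + 1 + t)).E x = some (y x) ∧
        pl u' (P (k + 1 + t)).E x = some (y' x)) ∧
      ∀ x : ℤ, ((P (k + 1)).E : ℤ) ≤ x →
        pl u (P (k + 1 + t)).E x = pl u' (P (k + 1 + t)).E x := by
  induction t with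
  | zero =>
    obtain ⟨u, hu, hul, hux⟩ := ext_base hG hN k hy
    obtain ⟨u', hu', hul', hux'⟩ := ext_base hG hN k hy'
    refine ⟨u, hu, u', hu', hul, hul', fun x hx => ⟨hux x hx, hux' x hx⟩, ?_⟩
    intro x hx
    have h1 : ∀ v : List α, v.length = (P (k + 1)).L → pl v (P (k + 1)).E x = none := by
      intro v hv
      unfold pl
      split_ifs with h
      · rw [List.getElem?_eq_none]
        omega
      · rfl
    rw [h1 u hul, h1 u' hul']
  | succ t ih =>
    obtain ⟨v, hv, v', hv', hvl, hvl', hvx, hvE⟩ := ih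
    obtain ⟨u, hu, u', hu', hul, hul', hux, huE⟩ := ext_step hG hN (k + 1 + t) hv hv' hvl hvl'
    have e1 := L_ge hG hN (k + t)
    have e2 := m_mono hG hN (show k ≤ k + t by omega)
    have e3 := E_gt hG hN (k + t)
    have e4 : k + 1 + t = k + t + 1 := by ring
    rw [← e4] at e1 e3
    refine ⟨u, hu, u', hu', hul, hul', ?_, ?_⟩
    · intro x hx
      have hx' := abs_le.1 hx
      obtain ⟨h1, h2⟩ := hux x (by omega) (by omega)
      obtain ⟨h3, h4⟩ := hvx x hx
      exact ⟨h1.trans h3, h2.trans h4⟩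
    · intro x hx
      by_cases h : ((P (k + 1 + t)).E : ℤ) ≤ x
      · exact huE x h
      · obtain ⟨h1, h2⟩ := hux x (by omega) (by omega)
        exact h1.trans ((hvE x hx).trans h2.symm)

end seq

/-- the subshift -/
def Y (P : ℕ → Lv α) : Set (ℤ → α) := {y | ∀ (a : ℤ) (n : ℕ), word y a n ∈ lang P}

lemma word_shift (y : ℤ → α) (c a : ℤ) (n : ℕ) :
    word (fun x => y (x + c)) a n = word y (a + c) n := by
  unfold word
  congr 1
  funext i
  show y (a + i + c) = y (a + c + i)
  rw [show a + (i : ℤ) + c = a + c + i by ring]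

lemma shift_mem {P : ℕ → Lv α} {y : ℤ → α} (hy : y ∈ Y P) (c : ℤ) :
    (fun x => y (x + c)) ∈ Y P := by
  intro a n
  rw [word_shift]
  exact hy _ _

lemma word_of_pl {u : List α} {f : ℤ → α} {E : ℤ}
    (h : ∀ x : ℤ, E - u.length ≤ x → x < E → pl u E x = some (f x)) :
    u = word f (E - u.length) u.length := by
  apply eq_word
  intro i hi
  have h1 := h (E - u.length + i) (by omega) (by omega)
  unfold pl at h1
  rw [if_pos (by omega)] at h1
  rw [← h1]
  congr 1
  omega

section top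

variable [TopologicalSpace α] [DiscreteTopology α]

lemma isClosed_Y (P : ℕ → Lv α) : IsClosed (Y P) := by
  have : Y P = ⋂ (a : ℤ) (n : ℕ), {y : ℤ → α | word y a n ∈ lang P} := by
    ext y
    simp [Y]
  rw [this]
  exact isClosed_iInter fun a => isClosed_iInter fun n => isClosed_word a n _

variable {P : ℕ → Lv α} (hG : ∀ j, Good (j + 1).factorial (P j))
  (hN : ∀ j, Nx (P j) (P (j + 1)))

include hG hN

/-- two windows can be continued so that the futures coincide -/
theorem ext_pair [Finite α] [Inhabited α] (k : ℕ) {y y' : ℤ → α}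
    (hy : word y (-((P k).m : ℤ)) (2 * (P k).m + 1) ∈ lang P)
    (hy' : word y' (-((P k).m : ℤ)) (2 * (P k).m + 1) ∈ lang P) :
    ∃ u ∈ Y P, ∃ u' ∈ Y P, (∀ x : ℤ, |x| ≤ (P k).m → u x = y x) ∧
      (∀ x : ℤ, |x| ≤ (P k).m → u' x = y' x) ∧
      ∀ x : ℤ, ((P (k + 1)).E : ℤ) ≤ x → u x = u' x := by
  let C : ℕ → Set ((ℤ → α) × (ℤ → α)) := fun M => {p |
    (∀ x : ℤ, |x| ≤ (P k).m → p.1 x = y x ∧ p.2 x = y' x) ∧
    (∀ x : ℤ, ((P (k + 1)).E : ℤ) ≤ x → x ≤ M → p.1 x = p.2 x) ∧
    ∀ (a : ℤ) (n : ℕ), -(M : ℤ) ≤ a → a + n ≤ M + 1 →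
      word p.1 a n ∈ lang P ∧ word p.2 a n ∈ lang P}
  have hcl : ∀ M, IsClosed (C M) := by
    intro M
    have : C M = (⋂ (x : ℤ) (_ : |x| ≤ (P k).m),
        ({p : (ℤ → α) × (ℤ → α) | p.1 x = y x} ∩ {p | p.2 x = y' x})) ∩
      ((⋂ (x : ℤ) (_ : ((P (k + 1)).E : ℤ) ≤ x) (_ : x ≤ M),
        {p : (ℤ → α) × (ℤ → α) | p.1 x = p.2 x}) ∩
      ⋂ (a : ℤ) (n : ℕ) (_ : -(M : ℤ) ≤ a) (_ : a + n ≤ M + 1),
        ({p : (ℤ → α) × (ℤ → α) | word p.1 a n ∈ lang P} ∩ {p | word p.2 a n ∈ lang P})) := by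
      ext p
      simp only [C, Set.mem_inter_iff, Set.mem_iInter]
      rfl
    rw [this]
    refine IsClosed.inter ?_ (IsClosed.inter ?_ ?_)
    · refine isClosed_iInter fun x => isClosed_iInter fun _ => IsClosed.inter ?_ ?_
      · exact isClosed_eq ((continuous_apply x).comp continuous_fst) continuous_const
      · exact isClosed_eq ((continuous_apply x).comp continuous_snd) continuous_const
    · refine isClosed_iInter fun x => isClosed_iInter fun _ => isClosed_iInter fun _ => ?_
      exact isClosed_eq ((continuous_apply x).comp continuous_fst)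
        ((continuous_apply x).comp continuous_snd)
    · refine isClosed_iInter fun a => isClosed_iInter fun n => isClosed_iInter fun _ =>
        isClosed_iInter fun _ => IsClosed.inter ?_ ?_
      · exact (isClosed_word (α := α) a n (lang P)).preimage continuous_fst
      · exact (isClosed_word (α := α) a n (lang P)).preimage continuous_snd
  have hne : ∀ M, (C M).Nonempty := by
    intro M
    obtain ⟨u, hu, u', hu', hul, hul', hux, huE⟩ := claim hG hN k hy hy' M
    have e1 := E_gt hG hN (k + M)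
    have e2 := L_ge hG hN (k + M)
    have e3 := m_ge hG hN (k + M)
    have e5 := m_mono hG hN (show k ≤ k + M by omega)
    have e4 : k + 1 + M = k + M + 1 := by ring
    rw [← e4] at e1 e2
    set E := (P (k + 1 + M)).E with hE
    set L := (P (k + 1 + M)).L with hL
    have key : ∀ (u : List α) (f : ℤ → α), (∀ x, f x = (pl u E x).getD default) →
        u ∈ (P (k + 1 + M)).W → u.length = L →
        ∀ (a : ℤ) (n : ℕ), -(M : ℤ) ≤ a → a + n ≤ M + 1 → word f a n ∈ lang P := by
      intro u f hf hu hul a n h1 h2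
      refine ⟨k + 1 + M, u, hu, ?_⟩
      have h3 : u = word f ((E : ℤ) - u.length) u.length := by
        apply word_of_pl
        intro x hx1 hx2
        rw [hf]
        unfold pl
        rw [if_pos hx1, List.getElem?_eq_getElem (by omega)]
        rfl
      rw [h3]
      exact word_infix f (by omega) (by omega)
    refine ⟨(fun x => (pl u E x).getD default, fun x => (pl u' E x).getD default), ?_, ?_, ?_⟩
    · intro x hx
      obtain ⟨h1, h2⟩ := hux x hx
      exact ⟨by simp only [h1]; rfl, by simp only [h2]; rfl⟩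
    · intro x hx _
      simp only [huE x hx]
    · intro a n h1 h2
      exact ⟨key u _ (fun x => rfl) hu hul a n h1 h2, key u' _ (fun x => rfl) hu' hul' a n h1 h2⟩
  have hnest : ∀ M, C (M + 1) ⊆ C M := by
    rintro M p ⟨h1, h2, h3⟩
    refine ⟨h1, fun x hx h4 => h2 x hx (by push_cast; omega), fun a n h4 h5 => h3 a n ?_ ?_⟩
    · push_cast; omega
    · push_cast; omega
  obtain ⟨p, hp⟩ := IsCompact.nonempty_iInter_of_sequence_nonempty_isCompact_isClosed C hnest
    hne (hcl 0).isCompact hcl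
  rw [Set.mem_iInter] at hp
  refine ⟨p.1, ?_, p.2, ?_, fun x hx => ((hp 0).1 x hx).1, fun x hx => ((hp 0).1 x hx).2, ?_⟩
  · intro a n
    exact ((hp (a.natAbs + n)).2.2 a n (by omega) (by omega)).1
  · intro a n
    exact ((hp (a.natAbs + n)).2.2 a n (by omega) (by omega)).2
  · intro x hx
    exact (hp x.toNat).2.1 x hx (by omega)

theorem Y_nonempty [Finite α] [Inhabited α] : (Y P).Nonempty := by
  have hX : (P 0).X ∈ lang P := by
    obtain ⟨w, hw⟩ := W_ne hG 1
    have hw' := hw
    rw [(hN 0).W] at hw'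
    obtain ⟨v, hv, rfl, h1, -⟩ := hw'
    exact ⟨1, _, hw, (List.prefix_append _ _).isInfix⟩
  have hl : 2 * (P 0).m + 1 ≤ (P 0).X.length := by
    have h1 := (hG 0).k_ge
    have h2 := (hG 0).N_ge
    rw [Lv.X_length]
    omega
  generalize (P 0).X = z at hl hX
  let f : ℤ → α := fun x => (z[(x + (P 0).m).toNat]?).getD default
  have h2 : z.take (2 * (P 0).m + 1) = word f (-((P 0).m : ℤ)) (2 * (P 0).m + 1) := by
    have h3 : (z.take (2 * (P 0).m + 1)).length = 2 * (P 0).m + 1 := by
      rw [List.length_take]; omega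
    have := eq_word (y := f) (a := -((P 0).m : ℤ)) (v := z.take (2 * (P 0).m + 1)) (by
      intro i hi
      rw [h3] at hi
      have h4 : (-((P 0).m : ℤ) + i + (P 0).m).toNat = i := by omega
      show _ = some ((z[(-((P 0).m : ℤ) + i + (P 0).m).toNat]?).getD default)
      rw [h4, List.getElem?_take_of_lt hi, List.getElem?_eq_getElem (by omega)]
      rfl)
    rwa [h3] at this
  have h5 : word f (-((P 0).m : ℤ)) (2 * (P 0).m + 1) ∈ lang P := by
    rw [← h2]
    exact lang_infix hX (List.take_prefix _ _).isInfix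
  obtain ⟨y, hy, -⟩ := ext_pair hG hN 0 h5 h5
  exact ⟨y, hy⟩

end top

section univ

lemma infix_word {y : ℤ → α} {a : ℤ} {n : ℕ} {w : List α} (h : w <:+: word y a n) :
    ∃ p : ℕ, p + w.length ≤ n ∧ word y (a + p) w.length = w := by
  obtain ⟨s, t, h⟩ := h
  have hlen := congrArg List.length h
  simp only [List.length_append, word_length] at hlen
  refine ⟨s.length, by omega, ?_⟩
  symm
  apply eq_word
  intro i hi
  have h1 : (s ++ w ++ t)[s.length + i]? = w[i]? := by
    rw [List.getElem?_append_left (by simp; omega), List.getElem?_append_right (by omega),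
      Nat.add_sub_cancel_left]
  rw [← h1, h, word_get _ _ _ _ (by omega)]
  congr 2
  push_cast
  ring

lemma word_sub {y : ℤ → α} {a : ℤ} {z s w t : List α} (h : word y a z.length = z)
    (hz : z = s ++ w ++ t) : word y (a + s.length) w.length = w := by
  symm
  apply eq_word
  intro i hi
  have h1 : (s ++ w ++ t)[s.length + i]? = w[i]? := by
    rw [List.getElem?_append_left (by simp; omega), List.getElem?_append_right (by omega),
      Nat.add_sub_cancel_left]
  rw [← h1, ← hz, ← h, word_get _ _ _ _ (by rw [hz]; simp; omega)]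
  congr 2
  push_cast
  ring

variable {P : ℕ → Lv α} (hG : ∀ j, Good (j + 1).factorial (P j))
  (hN : ∀ j, Nx (P j) (P (j + 1)))

include hG hN

/-- joint universality along `(2 n, n)` -/
theorem univ (j : ℕ) {y y' : ℤ → α} (hy : y ∈ Y P) (hy' : y' ∈ Y P) {w w' : List α}
    (hw : w ∈ (P j).W) (hw' : w' ∈ (P j).W) (c e : ℤ) :
    ∃ a b : ℤ, word y a w.length = w ∧ word y' b w'.length = w' ∧ a = 2 * b + c ∧
      b ≡ e [ZMOD ((j + 1).factorial : ℕ)] := by
  have hg := hG j
  have hk := hg.k_ge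
  have hGp := hg.G_pos
  have hQ : 1 ≤ (j + 1).factorial := Nat.factorial_pos _
  set Q := (j + 1).factorial with hQd
  have hB : (P (j + 1)).B = (P j).X.length + 3 * (P j).N := (hN j).B
  have hXl := (P j).X_length
  -- the long word in `y'`
  obtain ⟨p, hp1, hp2⟩ := infix_word (lang_X hG hN (hy' 0 (2 * (P (j + 1)).B + 1)) j (by simp))
  obtain ⟨b0, hb0⟩ : ∃ b0 : ℤ, b0 = 0 + (p : ℤ) := ⟨_, rfl⟩
  rw [← hb0] at hp2
  -- the occurrence of `w'` in `G`
  obtain ⟨s', t', hs', hs'e⟩ := hg.G_res w' hw' ((e - b0 - (P j).F.length) % (Q : ℤ)).toNat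
  have hs'r : (s'.length : ℤ) ≡ e - b0 - (P j).F.length [ZMOD Q] := by
    have h1 := (Int.natCast_modEq_iff).2 hs'e
    have h2 : ((((e - b0 - (P j).F.length) % (Q : ℤ)).toNat : ℕ) : ℤ) =
        (e - b0 - (P j).F.length) % (Q : ℤ) := Int.toNat_of_nonneg (Int.emod_nonneg _ (by omega))
    rw [h2] at h1
    exact h1.trans (Int.mod_modEq _ _)
  have hs'l : s'.length ≤ (P j).G.length := by
    have := congrArg List.length hs'
    simp only [List.length_append] at this
    omega
  -- the long word in `y`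
  obtain ⟨A0, hA0⟩ : ∃ A0 : ℤ, A0 = 2 * b0 + c + 2 * (P j).F.length + 2 * (P j).G.length :=
    ⟨_, rfl⟩
  obtain ⟨q, hq1, hq2⟩ := infix_word (lang_X hG hN (hy A0 (2 * (P (j + 1)).B + 1)) j (by simp))
  obtain ⟨a0, ha0⟩ : ∃ a0 : ℤ, a0 = A0 + (q : ℤ) := ⟨_, rfl⟩
  rw [← ha0] at hq2
  obtain ⟨R, hR⟩ : ∃ R : ℤ, R = 2 * b0 + 2 * (P j).F.length + 2 * s'.length + c - a0 := ⟨_, rfl⟩
  have hGp2 : (0 : ℤ) < (2 * (P j).G.length : ℕ) := by push_cast; omega
  obtain ⟨s, t, hs, hse⟩ := hg.F_res w hw (R % ((2 * (P j).G.length : ℕ) : ℤ)).toNat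
  have hsr : (s.length : ℤ) ≡ R [ZMOD ((2 * (P j).G.length : ℕ) : ℤ)] := by
    have h1 := (Int.natCast_modEq_iff).2 hse
    have h2 : (((R % ((2 * (P j).G.length : ℕ) : ℤ)).toNat : ℕ) : ℤ) =
        R % ((2 * (P j).G.length : ℕ) : ℤ) := Int.toNat_of_nonneg (Int.emod_nonneg _ hGp2.ne')
    rw [h2] at h1
    exact h1.trans (Int.mod_modEq _ _)
  have hsl : s.length ≤ (P j).F.length := by
    have := congrArg List.length hs
    simp only [List.length_append] at this
    omega
  have hR0 : R ≤ 0 := by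
    rw [hR, ha0, hA0]
    omega
  obtain ⟨i, hi⟩ := (Int.modEq_iff_dvd.1 hsr.symm)
  have hi0 : 0 ≤ i := by
    by_contra hneg
    push Not at hneg
    have : ((2 * (P j).G.length : ℕ) : ℤ) * i < 0 := mul_neg_of_pos_of_neg hGp2 hneg
    omega
  obtain ⟨i', rfl⟩ : ∃ i' : ℕ, i = i' := ⟨i.toNat, by omega⟩
  have hik : i' < (P j).k := by
    by_contra hge
    push Not at hge
    have h1 : (P j).k * (P j).G.length ≤ i' * (P j).G.length := Nat.mul_le_mul_right _ hge
    have h2 : ((2 * (P j).G.length : ℕ) : ℤ) * (i' : ℤ) = 2 * ((i' * (P j).G.length : ℕ) : ℤ) := by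
      push_cast; ring
    rw [h2] at hi
    omega
  refine ⟨a0 + s.length, b0 + (((P j).F.length + i' * (P j).G.length + s'.length : ℕ) : ℤ),
    ?_, ?_, ?_, ?_⟩
  · refine word_sub hq2 (t := t ++ (List.replicate (P j).k (P j).G).flatten) ?_
    unfold Lv.X
    rw [hs]
    simp
  · obtain ⟨k', hk'⟩ : ∃ k', (P j).k = i' + (1 + k') := ⟨(P j).k - i' - 1, by omega⟩
    have h1 : (P j).X = ((P j).F ++ (List.replicate i' (P j).G).flatten ++ s') ++ w' ++
        (t' ++ (List.replicate k' (P j).G).flatten) := by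
      unfold Lv.X
      rw [hk', List.replicate_add, List.replicate_add, List.flatten_append, List.flatten_append]
      have h2 : (List.replicate 1 (P j).G).flatten = s' ++ w' ++ t' := by
        simp only [List.replicate_one, List.flatten_cons, List.flatten_nil, List.append_nil]
        exact hs'
      rw [h2]
      simp
    have h3 : ((P j).F ++ (List.replicate i' (P j).G).flatten ++ s').length =
        (P j).F.length + i' * (P j).G.length + s'.length := by
      rw [List.length_append, List.length_append, List.length_flatten]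
      simp
    have := word_sub hp2 h1
    rw [h3] at this
    exact this
  · have h2 : ((2 * (P j).G.length : ℕ) : ℤ) * (i' : ℤ) = 2 * ((i' * (P j).G.length : ℕ) : ℤ) := by
      push_cast; ring
    rw [h2] at hi
    push_cast at hi ⊢
    linarith
  · obtain ⟨g, hg'⟩ := hg.G_dvd
    have h1 : b0 + (((P j).F.length + i' * (P j).G.length + s'.length : ℕ) : ℤ) ≡
        b0 + ((P j).F.length + 0 + (e - b0 - (P j).F.length)) [ZMOD Q] := by
      push_cast
      refine Int.ModEq.add_left _ (Int.ModEq.add (Int.ModEq.add_left _ ?_) hs'r)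
      rw [Int.modEq_zero_iff_dvd, hg']
      exact ⟨i' * g, by push_cast; ring⟩
    refine h1.trans ?_
    have h2 : b0 + (((P j).F.length : ℤ) + 0 + (e - b0 - (P j).F.length)) = e := by ring
    rw [h2]

end univ

end Pool.Agent.W681.RC
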