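import Mathlib
import Pool.Agent.W681.RC.Shift
import Pool.Agent.W681.RC.Split

/-!
# The first system: `C² × C × rotation`, and its open map onto the Cantor space
-/

set_option autoImplicit false

namespace Pool.Agent.W681.RC

open Filter Topology Pool.Agent.H317R3

/-- pairwise coprime moduli -/
noncomputable abbrev pr (i : ℕ) : ℕ := Nat.nth Nat.Prime i

lemma pr_prime (i : ℕ) : (pr i).Prime := Nat.prime_nth_prime i

instance instPr (i : ℕ) : NeZero (pr i) := ⟨(pr_prime i).ne_zero⟩

instance instPr1 (i : ℕ) : Fact (1 < pr i) := ⟨(pr_prime i).one_lt⟩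

/-- the product of the finite cyclic groups -/
abbrev KK : Type := ∀ i : ℕ, ZMod (pr i)

/-- the space -/
abbrev XS (P : ℕ → Lv Bool) : Type := (Y P × Y P) × KK

/-- power formula -/
lemma zpow_formula {X : Type} [TopologicalSpace X] (T : X ≃ₜ X) (g : ℤ → X → X)
    (h0 : ∀ x, g 0 x = x) (h1 : ∀ n x, T (g n x) = g (n + 1) x) :
    ∀ (n : ℤ) (x : X), (T ^ n) x = g n x := by
  intro n
  induction n with
  | zero => intro x; rw [zpow_zero, h0]; rfl
  | succ n ih =>
    intro x
    rw [zpow_add_one, ← h1]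
    have : (T ^ (n : ℤ) * T) x = T ((T ^ (n : ℤ)) x) := by
      rw [← zpow_add_one, add_comm, zpow_add, zpow_one]
      rfl
    rw [this, ih]
  | pred n ih =>
    intro x
    have h2 : T ((T ^ (-(n : ℤ) - 1)) x) = T (g (-(n : ℤ) - 1) x) := by
      rw [h1]
      have : T ((T ^ (-(n : ℤ) - 1)) x) = (T ^ (1 + (-(n : ℤ) - 1))) x := by
        rw [zpow_add, zpow_one]
        rfl
      rw [this]
      have h3 : (1 : ℤ) + (-(n : ℤ) - 1) = -n := by ring
      have h4 : -(n : ℤ) - 1 + 1 = -n := by ring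
      rw [h3, h4]
      exact ih x
    exact T.injective h2

section

variable (P : ℕ → Lv Bool)

/-- the shift by `c` -/
def shY (c : ℤ) : Y P ≃ₜ Y P where
  toFun y := ⟨fun x => y.1 (x + c), shift_mem y.2 c⟩
  invFun y := ⟨fun x => y.1 (x + -c), shift_mem y.2 (-c)⟩
  left_inv y := by
    apply Subtype.ext
    funext x
    show y.1 (x + -c + c) = y.1 x
    rw [neg_add_cancel_right]
  right_inv y := by
    apply Subtype.ext
    funext x
    show y.1 (x + c + -c) = y.1 x
    rw [add_neg_cancel_right]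
  continuous_toFun := by
    refine Continuous.subtype_mk (continuous_pi fun x => ?_) _
    exact (continuous_apply (x + c)).comp continuous_subtype_val
  continuous_invFun := by
    refine Continuous.subtype_mk (continuous_pi fun x => ?_) _
    exact (continuous_apply (x + -c)).comp continuous_subtype_val

/-- the rotation -/
noncomputable def rotH : KK ≃ₜ KK where
  toFun κ := fun i => κ i + 1
  invFun κ := fun i => κ i + -1
  left_inv κ := by
    funext i
    show κ i + 1 + -1 = κ i
    rw [add_neg_cancel_right]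
  right_inv κ := by
    funext i
    show κ i + -1 + 1 = κ i
    rw [neg_add_cancel_right]
  continuous_toFun := continuous_pi fun i =>
    (continuous_of_discreteTopology (f := fun a : ZMod (pr i) => a + 1)).comp (continuous_apply i)
  continuous_invFun := continuous_pi fun i =>
    (continuous_of_discreteTopology (f := fun a : ZMod (pr i) => a + -1)).comp (continuous_apply i)

/-- the first homeomorphism -/
noncomputable def TT : XS P ≃ₜ XS P := ((shY P 2).prodCongr (shY P 1)).prodCongr rotH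

/-- the powers of `TT` -/
noncomputable def gg (n : ℤ) (x : XS P) : XS P :=
  ((⟨fun t => x.1.1.1 (t + 2 * n), shift_mem x.1.1.2 (2 * n)⟩,
    ⟨fun t => x.1.2.1 (t + n), shift_mem x.1.2.2 n⟩), fun i => x.2 i + (n : ZMod (pr i)))

lemma TT_zpow (n : ℤ) (x : XS P) : (TT P ^ n) x = gg P n x := by
  refine zpow_formula (TT P) (gg P) ?_ ?_ n x
  · intro x
    refine Prod.ext (Prod.ext ?_ ?_) ?_
    · apply Subtype.ext
      funext t
      show x.1.1.1 (t + 2 * 0) = _
      simp
    · apply Subtype.ext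
      funext t
      show x.1.2.1 (t + 0) = _
      simp
    · funext i
      show x.2 i + ((0 : ℤ) : ZMod (pr i)) = _
      simp
  · intro n x
    refine Prod.ext (Prod.ext ?_ ?_) ?_
    · apply Subtype.ext
      funext t
      show x.1.1.1 (t + 2 + 2 * n) = x.1.1.1 (t + 2 * (n + 1))
      exact congrArg x.1.1.1 (by ring)
    · apply Subtype.ext
      funext t
      show x.1.2.1 (t + 1 + n) = x.1.2.1 (t + (n + 1))
      exact congrArg x.1.2.1 (by ring)
    · funext i
      show x.2 i + ((n : ℤ) : ZMod (pr i)) + 1 = x.2 i + ((n + 1 : ℤ) : ZMod (pr i))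
      push_cast
      ring

variable {P}

/-- `x` and `x'` agree on the window `M` -/
def cl (M : ℕ) (x x' : XS P) : Prop :=
  (∀ t : ℤ, |t| ≤ M → x'.1.1.1 t = x.1.1.1 t ∧ x'.1.2.1 t = x.1.2.1 t) ∧
    ∀ i, i < M → x'.2 i = x.2 i

lemma cl.mono {M M' : ℕ} {x x' : XS P} (h : cl M' x x') (hM : M ≤ M') : cl M x x' :=
  ⟨fun t ht => h.1 t (ht.trans (by exact_mod_cast hM)), fun i hi => h.2 i (by omega)⟩

lemma cont1 (t : ℤ) : Continuous fun x : XS P => x.1.1.1 t :=
  (continuous_apply t).comp (continuous_subtype_val.comp (continuous_fst.comp continuous_fst))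

lemma cont2 (t : ℤ) : Continuous fun x : XS P => x.1.2.1 t :=
  (continuous_apply t).comp (continuous_subtype_val.comp (continuous_snd.comp continuous_fst))

lemma cont3 (i : ℕ) : Continuous fun x : XS P => x.2 i :=
  (continuous_apply i).comp continuous_snd

lemma ev_of_cont {X β : Type} [TopologicalSpace X] [TopologicalSpace β] [DiscreteTopology β]
    {f : X → β} (hf : Continuous f) (x : X) : ∀ᶠ x' in 𝓝 x, f x' = f x := by
  have h := hf.tendsto x
  rw [nhds_discrete β, tendsto_pure] at h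
  exact h

lemma cl_mem_nhds (M : ℕ) (x : XS P) : {x' | cl M x x'} ∈ 𝓝 x := by
  have h1 : ∀ᶠ x' in 𝓝 x, ∀ t ∈ Finset.Icc (-(M : ℤ)) M,
      x'.1.1.1 t = x.1.1.1 t ∧ x'.1.2.1 t = x.1.2.1 t := by
    rw [Filter.eventually_all_finset]
    intro t _
    exact (ev_of_cont (cont1 t) x).and (ev_of_cont (cont2 t) x)
  have h2 : ∀ᶠ x' in 𝓝 x, ∀ i ∈ Finset.range M, x'.2 i = x.2 i := by
    rw [Filter.eventually_all_finset]
    intro i _
    exact ev_of_cont (cont3 i) x
  filter_upwards [h1, h2] with x' h3 h4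
  exact ⟨fun t ht => h3 t (Finset.mem_Icc.2 (abs_le.1 ht)), fun i hi => h4 i (Finset.mem_range.2 hi)⟩

lemma tendsto_close {u v : ℕ → XS P} {x : XS P} (h : ∀ k, cl k (u k) (v k))
    (hu : Tendsto u atTop (𝓝 x)) : Tendsto v atTop (𝓝 x) := by
  have hx : x = ((⟨x.1.1.1, x.1.1.2⟩, ⟨x.1.2.1, x.1.2.2⟩), x.2) := rfl
  have e1 : Tendsto (fun k => (v k).1.1) atTop (𝓝 x.1.1) := by
    rw [tendsto_subtype_rng, tendsto_pi_nhds]
    intro t
    have h1 := ((cont1 (P := P) t).tendsto x).comp hu
    refine h1.congr' ?_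
    filter_upwards [eventually_ge_atTop t.natAbs] with k hk
    exact ((h k).1 t (by rw [Int.abs_eq_natAbs]; exact_mod_cast hk)).1.symm
  have e2 : Tendsto (fun k => (v k).1.2) atTop (𝓝 x.1.2) := by
    rw [tendsto_subtype_rng, tendsto_pi_nhds]
    intro t
    have h1 := ((cont2 (P := P) t).tendsto x).comp hu
    refine h1.congr' ?_
    filter_upwards [eventually_ge_atTop t.natAbs] with k hk
    exact ((h k).1 t (by rw [Int.abs_eq_natAbs]; exact_mod_cast hk)).2.symm
  have e3 : Tendsto (fun k => (v k).2) atTop (𝓝 x.2) := by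
    rw [tendsto_pi_nhds]
    intro i
    have h1 := ((cont3 (P := P) i).tendsto x).comp hu
    refine h1.congr' ?_
    filter_upwards [eventually_gt_atTop i] with k hk
    exact ((h k).2 i hk).symm
  exact (e1.prodMk_nhds e2).prodMk_nhds e3

lemma exists_cl {U : Set (XS P)} {x : XS P} (hU : U ∈ 𝓝 x) : ∃ M, ∀ x', cl M x x' → x' ∈ U := by
  by_contra hcon
  push Not at hcon
  choose v hv1 hv2 using hcon
  have h1 := tendsto_close (u := fun _ => x) hv1 tendsto_const_nhds
  obtain ⟨k, hk⟩ := (h1.eventually hU).exists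
  exact hv2 k hk

lemma lc_of_cl {β : Type} {F : XS P → β} (h : ∃ M, ∀ x x', cl M x x' → F x' = F x) :
    IsLocallyConstant F := by
  obtain ⟨M, hM⟩ := h
  rw [IsLocallyConstant.iff_eventually_eq]
  intro x
  filter_upwards [cl_mem_nhds M x] with x' hx'
  exact hM x x' hx'

instance instCompactY : CompactSpace (Y P) := isCompact_iff_compactSpace.1 (isClosed_Y P).isCompact

lemma lc_unif {β : Type} {F : XS P → β} (hF : IsLocallyConstant F) :
    ∃ M, ∀ x x', cl M x x' → F x' = F x := by
  by_contra hcon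
  push Not at hcon
  choose u v h1 h2 using hcon
  obtain ⟨x, φ, hφ, hlim⟩ := CompactSpace.tendsto_subseq u
  have h3 : Tendsto (v ∘ φ) atTop (𝓝 x) :=
    tendsto_close (u := u ∘ φ) (fun k => (h1 (φ k)).mono (hφ.id_le k)) hlim
  have h4 := hlim.eventually (hF.eventually_eq x)
  have h5 := h3.eventually (hF.eventually_eq x)
  obtain ⟨k, h6, h7⟩ := (h4.and h5).exists
  exact h2 (φ k) (h7.trans h6.symm)

end

section min

variable {P : ℕ → Lv Bool} (hG : ∀ j, Good (j + 1).factorial (P j))
  (hN : ∀ j, Nx (P j) (P (j + 1)))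

lemma exists_crt (κ μ : KK) (k : ℕ) : ∃ r : ℤ, ∀ i, i < k → κ i + (r : ZMod (pr i)) = μ i := by
  have hco : Set.Pairwise (↑(Finset.range k)) (Function.onFun Nat.Coprime (fun i => pr i)) := by
    intro i _ j _ hij
    refine (Nat.coprime_primes (pr_prime i) (pr_prime j)).2 ?_
    intro h
    exact hij (Nat.nth_injective Nat.infinite_setOfPred_prime h)
  obtain ⟨r, hr⟩ := Nat.chineseRemainderOfFinset (fun i => (μ i - κ i).val) (fun i => pr i)
    (Finset.range k) (fun i _ => (pr_prime i).ne_zero) hco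
  refine ⟨r, fun i hi => ?_⟩
  have h1 := hr i (Finset.mem_range.2 hi)
  have h2 : ((r : ℕ) : ZMod (pr i)) = ((μ i - κ i).val : ZMod (pr i)) :=
    (ZMod.natCast_eq_natCast_iff _ _ _).2 h1
  rw [ZMod.natCast_val, ZMod.cast_id] at h2
  push_cast
  rw [h2]
  ring

include hG hN

lemma approx (x x1 : XS P) (k : ℕ) : ∃ n : ℤ, cl k x1 (gg P n x) := by
  obtain ⟨i1, h1⟩ := lang_up hG hN (x1.1.1.2 (-(k : ℤ)) (2 * k + 1))
  obtain ⟨i2, h2⟩ := lang_up hG hN (x1.1.2.2 (-(k : ℤ)) (2 * k + 1))
  obtain ⟨Q, hQ⟩ : ∃ Q : ℕ, Q = ∏ i ∈ Finset.range k, pr i := ⟨_, rfl⟩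
  have hQpos : 0 < Q := by
    rw [hQ]
    exact Finset.prod_pos fun i _ => (pr_prime i).pos
  obtain ⟨j, hj⟩ : ∃ j, j = max (max i1 i2) Q := ⟨_, rfl⟩
  obtain ⟨w, hw, s, t, hst⟩ := h1 j (by rw [hj]; exact (le_max_left _ _).trans (le_max_left _ _))
  obtain ⟨w', hw', s', t', hst'⟩ := h2 j (by
    rw [hj]; exact (le_max_right _ _).trans (le_max_left _ _))
  have hQd : Q ∣ (j + 1).factorial := Nat.dvd_factorial hQpos (by rw [hj]; omega)
  obtain ⟨r, hr⟩ := exists_crt x.2 x1.2 k
  obtain ⟨a, b, ha, hb, hab, hbe⟩ := univ hG hN j x.1.1.2 x.1.2.2 hw hw'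
    (2 * s'.length + k - s.length) (r - s'.length - k)
  refine ⟨b + s'.length + k, ?_, ?_⟩
  · intro t0 ht0
    have ht0' := abs_le.1 ht0
    constructor
    · show x.1.1.1 (t0 + 2 * (b + s'.length + k)) = x1.1.1.1 t0
      have h3 := word_sub ha hst.symm
      rw [word_length] at h3
      have h4 := word_get x.1.1.1 (a + s.length) (2 * k + 1) (t0 + k).toNat (by omega)
      rw [h3, word_get _ _ _ _ (by omega)] at h4
      have h5 := Option.some.inj h4
      rw [show (-(k : ℤ)) + ((t0 + k).toNat : ℤ) = t0 by omega] at h5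
      rw [h5]
      exact congrArg x.1.1.1 (by omega)
    · show x.1.2.1 (t0 + (b + s'.length + k)) = x1.1.2.1 t0
      have h3 := word_sub hb hst'.symm
      rw [word_length] at h3
      have h4 := word_get x.1.2.1 (b + s'.length) (2 * k + 1) (t0 + k).toNat (by omega)
      rw [h3, word_get _ _ _ _ (by omega)] at h4
      have h5 := Option.some.inj h4
      rw [show (-(k : ℤ)) + ((t0 + k).toNat : ℤ) = t0 by omega] at h5
      rw [h5]
      exact congrArg x.1.2.1 (by omega)
  · intro i hi
    show x.2 i + ((b + s'.length + k : ℤ) : ZMod (pr i)) = x1.2 i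
    rw [← hr i hi]
    congr 1
    rw [ZMod.intCast_eq_intCast_iff]
    have h3 : (pr i : ℤ) ∣ ((j + 1).factorial : ℕ) := by
      have : pr i ∣ Q := by
        rw [hQ]
        exact Finset.dvd_prod_of_mem _ (Finset.mem_range.2 hi)
      exact_mod_cast this.trans hQd
    have h4 := (hbe.of_dvd h3)
    have h5 := (h4.add_right (s'.length : ℤ)).add_right (k : ℤ)
    have h6 : r - (s'.length : ℤ) - k + s'.length + k = r := by ring
    rw [h6] at h5
    exact h5

theorem TT_min (x : XS P) : DenseRange fun n : ℤ => (TT P ^ n) x := by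
  intro x1
  choose f hf using approx hG hN x x1
  have h1 : Tendsto (fun k => gg P (f k) x) atTop (𝓝 x1) :=
    tendsto_close (u := fun _ => x1) hf tendsto_const_nhds
  refine mem_closure_of_tendsto h1 (Eventually.of_forall fun k => ⟨f k, ?_⟩)
  exact TT_zpow P (f k) x

end min

end Pool.Agent.W681.RC
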