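import Mathlib
import Pool.Agent.W681.RC.System

/-!
# The pattern map: an open continuous map onto the Cantor space which vanishes at double returns
-/

set_option autoImplicit false

namespace Pool.Agent.W681.RC

open Filter Topology Pool.Agent.H317R3

/-- first place at which `y'` differs from the letter `y 0` -/
noncomputable def ell (y y' : ℤ → Bool) : ℕ := sInf {l : ℕ | y' l ≠ y 0}

/-- `y` and the shifted `y'` agree on the block `k` -/
def sb (P : ℕ → Lv Bool) (k : ℕ) (y y' : ℤ → Bool) : Prop :=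
  ∀ t : ℤ, ((P k).m : ℤ) ≤ t → t < (P (k + 1)).m → y t = y' (t + ell y y')

open Classical in
/-- index of the block containing `v` -/
noncomputable def blk (P : ℕ → Lv Bool) (v : ℕ) : ℕ := Nat.findGreatest (fun k => (P k).m ≤ v) v

open Classical in
/-- the pattern map -/
noncomputable def zz (P : ℕ → Lv Bool) (N : ℕ) (x : XS P) (n : ℕ) : Bool :=
  decide (x.2 (2 * n) = 0 ∧ sb P (blk P (2 * (N + n))) x.1.1.1 x.1.2.1)

section

variable {P : ℕ → Lv Bool} (hG : ∀ j, Good (j + 1).factorial (P j))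
  (hN : ∀ j, Nx (P j) (P (j + 1))) (hW : (P 0).W = {x : List Bool | ∃ a : Bool, x = [a]})

/-- every letter occurs in every window of this length -/
def JJ (P : ℕ → Lv Bool) : ℕ := 2 * (P 1).B + 1

section
include hG hN hW

lemma letter {y : ℤ → Bool} (hy : y ∈ Y P) (a : Bool) : ∃ l : ℕ, l < JJ P ∧ y l = a := by
  have h1 := lang_X hG hN (hy 0 (JJ P)) 0 (by simp [JJ])
  have h2 : [a] <:+: word y 0 (JJ P) := (inf_X hG 0 [a] (by rw [hW]; exact ⟨a, rfl⟩)).trans h1
  obtain ⟨p, hp1, hp2⟩ := infix_word h2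
  refine ⟨p, by simpa using hp1, ?_⟩
  have h3 := congrArg (fun l : List Bool => l[0]?) hp2
  simp only [List.length_singleton] at h3
  rw [word_get _ _ _ _ (by norm_num)] at h3
  simpa using h3

lemma ell_spec {y y' : ℤ → Bool} (hy' : y' ∈ Y P) :
    ell y y' < JJ P ∧ y' (ell y y') ≠ y 0 := by
  obtain ⟨l, hl, h⟩ := letter hG hN hW hy' (!(y 0))
  have hne : {l : ℕ | y' l ≠ y 0}.Nonempty := ⟨l, by
    show y' l ≠ y 0
    rw [h]
    simp⟩
  have hl' : l ∈ {l : ℕ | y' l ≠ y 0} := by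
    show y' l ≠ y 0
    rw [h]
    simp
  exact ⟨lt_of_le_of_lt (Nat.sInf_le hl') hl, Nat.sInf_mem hne⟩

lemma ell_congr {y y' u u' : ℤ → Bool} (hy' : y' ∈ Y P) (h0 : u 0 = y 0)
    (h1 : ∀ t : ℕ, t < JJ P → u' t = y' t) : ell u u' = ell y y' := by
  obtain ⟨h2, h3⟩ := ell_spec hG hN hW (y := y) hy'
  have hmem : ell y y' ∈ {l : ℕ | u' l ≠ u 0} := by
    show u' (ell y y') ≠ u 0
    rw [h1 _ h2, h0]
    exact h3
  refine le_antisymm (Nat.sInf_le hmem) ?_
  change ell y y' ≤ ell u u'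
  by_contra hlt
  push Not at hlt
  have h4 : u' (ell u u') ≠ u 0 := Nat.sInf_mem ⟨_, hmem⟩
  rw [h1 _ (hlt.trans h2), h0] at h4
  exact absurd (Nat.sInf_le (show ell u u' ∈ {l : ℕ | y' l ≠ y 0} from h4)) (by
    show ¬ ell y y' ≤ ell u u'
    omega)

end

section
include hG hN

lemma blk_spec {v : ℕ} (hv : (P 0).m ≤ v) :
    (P (blk P v)).m ≤ v ∧ v < (P (blk P v + 1)).m := by
  classical
  constructor
  · have := Nat.findGreatest_spec (P := fun k => (P k).m ≤ v) (Nat.zero_le v) hv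
    exact this
  · by_contra hcon
    push Not at hcon
    have h1 := m_ge hG hN (blk P v + 1)
    have h2 : blk P v + 1 ≤ blk P v :=
      Nat.le_findGreatest (P := fun k => (P k).m ≤ v) (h1.trans hcon) hcon
    omega

lemma blk_lt {v k : ℕ} (hv : (P 0).m ≤ v) (h : v < (P k).m) : blk P v < k := by
  by_contra hcon
  push Not at hcon
  have h1 := (blk_spec hG hN hv).1
  have h2 := m_mono hG hN hcon
  omega

lemma lt_of_blk_lt {v k : ℕ} (hv : (P 0).m ≤ v) (h : blk P v < k) : v < (P k).m := by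
  have h1 := (blk_spec hG hN hv).2
  have h2 := m_mono hG hN (show blk P v + 1 ≤ k by omega)
  omega

end

section
include hG hN hW

/-- the pattern depends on finitely many coordinates -/
lemma zz_lc (N n : ℕ) : IsLocallyConstant fun x : XS P => zz P N x n := by
  classical
  apply lc_of_cl
  set k := blk P (2 * (N + n)) with hk
  refine ⟨2 * n + 1 + (P (k + 1)).m + JJ P, ?_⟩
  intro x x' hx
  have h1 : ell x'.1.1.1 x'.1.2.1 = ell x.1.1.1 x.1.2.1 := by
    apply ell_congr hG hN hW x.1.2.2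
    · exact (hx.1 0 (by simp; omega)).1
    · intro t ht
      exact (hx.1 t (by rw [abs_le]; omega)).2
  have h2 := (ell_spec hG hN hW (y := x.1.1.1) x.1.2.2).1
  have h3 : sb P k x'.1.1.1 x'.1.2.1 ↔ sb P k x.1.1.1 x.1.2.1 := by
    unfold sb
    rw [h1]
    refine forall_congr' fun t => ?_
    refine forall_congr' fun ht1 => ?_
    refine forall_congr' fun ht2 => ?_
    rw [(hx.1 t (by rw [abs_le]; omega)).1,
      (hx.1 (t + ell x.1.1.1 x.1.2.1) (by rw [abs_le]; omega)).2]
  have h4 : x'.2 (2 * n) = x.2 (2 * n) := hx.2 _ (by omega)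
  show decide _ = decide _
  rw [h4]
  exact decide_eq_decide.2 (and_congr Iff.rfl h3)

lemma zz_cont (N : ℕ) : Continuous (zz P N) :=
  continuous_pi fun n => (zz_lc hG hN hW N n).continuous

omit hG hN hW in
lemma dec_eq {p : Prop} [Decidable p] {b : Bool} (h : p ↔ b = true) : decide p = b := by
  cases b <;> simp [h]

/-- set the bits of `κ` from some place on -/
noncomputable def setb (κ : KK) (S : Set ℕ) (ζ : ℕ → Bool) : KK := by
  classical
  exact fun i => if 2 ∣ i ∧ i / 2 ∈ S then (if ζ (i / 2) then 0 else 1) else κ i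

omit hG hN hW in
lemma setb_in (κ : KK) (S : Set ℕ) (ζ : ℕ → Bool) {n : ℕ} (hn : n ∈ S) :
    setb κ S ζ (2 * n) = 0 ↔ ζ n = true := by
  unfold setb
  have h1 : 2 * n / 2 = n := by omega
  have hc : 2 ∣ 2 * n ∧ 2 * n / 2 ∈ S := ⟨dvd_mul_right 2 n, by rw [h1]; exact hn⟩
  rw [if_pos hc, h1]
  split_ifs with h
  · simp [h]
  · simp [h]

omit hG hN hW in
lemma setb_out (κ : KK) (S : Set ℕ) (ζ : ℕ → Bool) {i : ℕ} (hi : i / 2 ∉ S) :
    setb κ S ζ i = κ i := by
  unfold setb
  rw [if_neg (by tauto)]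

/-- cut at level `c`: both coordinates get the same future -/
lemma cut {y y' : ℤ → Bool} (hy : y ∈ Y P) (hy' : y' ∈ Y P) (c : ℕ) (hc : JJ P ≤ (P c).m) :
    ∃ u ∈ Y P, ∃ u' ∈ Y P, (∀ t : ℤ, |t| + JJ P ≤ (P c).m → u t = y t ∧ u' t = y' t) ∧
      (∀ k, k < c → (sb P k u u' ↔ sb P k y y')) ∧ ∀ k, c < k → sb P k u u' := by
  obtain ⟨hl, -⟩ := ell_spec hG hN hW (y := y) hy'
  set l := ell y y' with hld
  obtain ⟨u, hu, u2, hu2, h1, h2, h3⟩ := ext_pair hG hN c (hy _ _) (shift_mem hy' l _ _)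
  have hu' : (fun t => u2 (t + -(l : ℤ))) ∈ Y P := shift_mem hu2 (-l)
  have hell : ell u (fun t => u2 (t + -(l : ℤ))) = l := by
    apply ell_congr hG hN hW hy' (h1 0 (by simp))
    intro t ht
    show u2 (t + -(l : ℤ)) = y' t
    rw [h2 _ (by rw [abs_le]; omega)]
    exact congrArg y' (by ring)
  refine ⟨u, hu, _, hu', ?_, ?_, ?_⟩
  · intro t ht
    refine ⟨h1 t (by omega), ?_⟩
    show u2 (t + -(l : ℤ)) = y' t
    have ht' : |t + -(l : ℤ)| ≤ (P c).m := by
      refine (abs_add_le _ _).trans ?_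
      rw [abs_neg, abs_of_nonneg (by omega : (0 : ℤ) ≤ l)]
      omega
    rw [h2 _ ht']
    exact congrArg y' (by ring)
  · intro k hk
    have h4 := m_mono hG hN (show k + 1 ≤ c by omega)
    unfold sb
    rw [hell]
    refine forall_congr' fun t => ?_
    refine forall_congr' fun ht1 => ?_
    refine forall_congr' fun ht2 => ?_
    have h5 : |t| ≤ (P c).m := by rw [abs_le]; omega
    rw [h1 t h5]
    show (y t = u2 (t + l + -(l : ℤ))) ↔ _
    rw [show t + (l : ℤ) + -l = t by ring, h2 t h5]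
  · intro k hk t ht1 ht2
    rw [hell]
    show u t = u2 (t + l + -(l : ℤ))
    rw [show t + (l : ℤ) + -l = t by ring]
    apply h3
    have h4 := m_mono hG hN (show c + 1 ≤ k by omega)
    have h5 := (hG (c + 1)).Em
    omega

/-- openness in terms of windows -/
lemma zz_lift (N : ℕ) (hN0 : (P 0).m ≤ N) (x : XS P) (M : ℕ) :
    ∃ n1, ∀ ζ : ℕ → Bool, (∀ n, n < n1 → ζ n = zz P N x n) →
      ∃ x', cl M x x' ∧ zz P N x' = ζ := by
  classical
  have hblk : ∀ n, (P 0).m ≤ 2 * (N + n) := fun n => by omega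
  by_cases hA : ∃ c0, ∀ c, c0 ≤ c → sb P c x.1.1.1 x.1.2.1
  · obtain ⟨c0, hc0⟩ := hA
    refine ⟨max M (P c0).m, ?_⟩
    intro ζ hζ
    set n1 := max M (P c0).m with hn1
    refine ⟨(x.1, setb x.2 {n | n1 ≤ n} ζ), ⟨fun t _ => ⟨rfl, rfl⟩, ?_⟩, ?_⟩
    · intro i hi
      apply setb_out
      show ¬ n1 ≤ i / 2
      have : M ≤ n1 := le_max_left _ _
      omega
    · funext n
      by_cases hn : n1 ≤ n
      · have h1 : sb P (blk P (2 * (N + n))) x.1.1.1 x.1.2.1 := by
          apply hc0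
          by_contra hcon
          push Not at hcon
          have := lt_of_blk_lt hG hN (hblk n) hcon
          have : (P c0).m ≤ n1 := le_max_right _ _
          omega
        have h2 := setb_in x.2 {n | n1 ≤ n} ζ hn
        show decide (setb x.2 {n | n1 ≤ n} ζ (2 * n) = 0 ∧
          sb P (blk P (2 * (N + n))) x.1.1.1 x.1.2.1) = ζ n
        exact dec_eq ((and_iff_left h1).trans h2)
      · rw [hζ n (by omega)]
        show decide (setb x.2 {n | n1 ≤ n} ζ (2 * n) = 0 ∧
          sb P (blk P (2 * (N + n))) x.1.1.1 x.1.2.1) = decide _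
        rw [setb_out]
        show ¬ n1 ≤ 2 * n / 2
        omega
  · push Not at hA
    obtain ⟨c, hc, hnot⟩ := hA (M + JJ P + 2 * (N + M))
    have hmc := m_ge hG hN c
    obtain ⟨u, hu, u', hu', h1, h2, h3⟩ := cut hG hN hW x.1.1.2 x.1.2.2 c (by omega)
    refine ⟨(P (c + 1)).m, ?_⟩
    intro ζ hζ
    refine ⟨((⟨u, hu⟩, ⟨u', hu'⟩), setb x.2 {n | c ≤ blk P (2 * (N + n))} ζ), ⟨?_, ?_⟩, ?_⟩
    · intro t ht
      exact h1 t (by omega)
    · intro i hi
      apply setb_out
      show ¬ c ≤ blk P (2 * (N + i / 2))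
      have := blk_lt hG hN (hblk (i / 2)) (k := c) (by omega)
      omega
    · funext n
      show decide (setb x.2 {n | c ≤ blk P (2 * (N + n))} ζ (2 * n) = 0 ∧
        sb P (blk P (2 * (N + n))) u u') = ζ n
      rcases lt_trichotomy (blk P (2 * (N + n))) c with h4 | h4 | h4
      · have h5 := lt_of_blk_lt hG hN (hblk n) (k := c + 1) (by omega)
        rw [hζ n (by omega), setb_out _ _ _ (by
          show ¬ c ≤ blk P (2 * (N + 2 * n / 2))
          have : 2 * n / 2 = n := by omega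
          rw [this]
          omega)]
        show _ = decide _
        exact decide_eq_decide.2 (and_congr Iff.rfl (h2 _ h4))
      · have h5 := lt_of_blk_lt hG hN (hblk n) (k := c + 1) (by omega)
        have h6 := hζ n (by omega)
        have h7 : zz P N x n = false := by
          show decide _ = false
          rw [decide_eq_false_iff_not]
          rintro ⟨-, h8⟩
          rw [h4] at h8
          exact hnot h8
        have h9 := setb_in x.2 {n | c ≤ blk P (2 * (N + n))} ζ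
          (show n ∈ {n | c ≤ blk P (2 * (N + n))} from h4.ge)
        rw [h6, h7] at *
        rw [decide_eq_false_iff_not]
        rintro ⟨h8, -⟩
        simpa using h9.1 h8
      · have h9 := setb_in x.2 {n | c ≤ blk P (2 * (N + n))} ζ
          (show n ∈ {n | c ≤ blk P (2 * (N + n))} from h4.le)
        exact dec_eq ((and_iff_left (h3 _ h4)).trans h9)

lemma zz_open (N : ℕ) (hN0 : (P 0).m ≤ N) : IsOpenMap (zz P N) := by
  rw [isOpenMap_iff_nhds_le]
  intro x S hS
  obtain ⟨M, hM⟩ := exists_cl hS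
  obtain ⟨n1, hn1⟩ := zz_lift hG hN hW N hN0 x M
  have h1 : ∀ᶠ ζ : ℕ → Bool in 𝓝 (zz P N x), ∀ n ∈ Finset.range n1, ζ n = zz P N x n := by
    rw [Filter.eventually_all_finset]
    intro n _
    exact ev_of_cont (continuous_apply n) (zz P N x)
  filter_upwards [h1] with ζ hζ
  obtain ⟨x', hx', rfl⟩ := hn1 ζ fun n hn => hζ n (Finset.mem_range.2 hn)
  exact hM x' hx'

lemma zz_surj (N c : ℕ) (hc : JJ P ≤ (P c).m) (hN1 : (P (c + 1)).m ≤ N) :
    Function.Surjective (zz P N) := by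
  classical
  intro ζ
  obtain ⟨y, hy⟩ := Y_nonempty hG hN
  obtain ⟨u, hu, u', hu', h1, h2, h3⟩ := cut hG hN hW hy hy c hc
  refine ⟨((⟨u, hu⟩, ⟨u', hu'⟩), setb (fun _ => 0) Set.univ ζ), ?_⟩
  funext n
  show decide (setb (fun _ => 0) Set.univ ζ (2 * n) = 0 ∧
        sb P (blk P (2 * (N + n))) u u') = ζ n
  have h4 : c < blk P (2 * (N + n)) := by
    by_contra hcon
    push Not at hcon
    have h5 := m_mono hG hN (show 0 ≤ c + 1 by omega)
    have h6 := lt_of_blk_lt hG hN (v := 2 * (N + n)) (k := c + 1) (by omega) (by omega)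
    omega
  have h9 := setb_in (fun _ => 0) Set.univ ζ (Set.mem_univ n)
  exact dec_eq ((and_iff_left (h3 _ h4)).trans h9)

omit hG hN hW in
lemma zz_flip (N : ℕ) : Flip (zz P N) := by
  classical
  intro F hF
  obtain ⟨M, hM⟩ := lc_unif hF
  refine ⟨fun x => decide (x.2 (2 * M + 1) = 0), ?_, ?_⟩
  · apply lc_of_cl
    refine ⟨2 * M + 2, fun x x' hx => ?_⟩
    rw [hx.2 (2 * M + 1) (by omega)]
  · intro b x
    refine ⟨(x.1, Function.update x.2 (2 * M + 1) (if b then 0 else 1)), ?_, ?_, ?_⟩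
    · apply hM
      refine ⟨fun t _ => ⟨rfl, rfl⟩, fun i hi => ?_⟩
      exact Function.update_of_ne (by omega) _ _
    · funext n
      have h : (Function.update x.2 (2 * M + 1) (if b then 0 else 1)) (2 * n) = x.2 (2 * n) :=
        Function.update_of_ne (by omega) _ _
      exact decide_eq_decide.2 (and_congr (by
        show (Function.update x.2 (2 * M + 1) (if b then 0 else 1)) (2 * n) = 0 ↔ _
        rw [h]) Iff.rfl)
    · cases b <;> simp

omit hG hN hW in
lemma exists_sep : ∃ V : ℕ → XS P → Bool, (∀ n, IsLocallyConstant (V n)) ∧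
    ∀ x x', (∀ n, V n x = V n x') → x = x' := by
  classical
  obtain ⟨e, he⟩ := exists_surjective_nat ((ℤ ⊕ ℤ) ⊕ (Σ i : ℕ, ZMod (pr i)))
  let W : ((ℤ ⊕ ℤ) ⊕ (Σ i : ℕ, ZMod (pr i))) → XS P → Bool := fun a x =>
    match a with
    | Sum.inl (Sum.inl t) => x.1.1.1 t
    | Sum.inl (Sum.inr t) => x.1.2.1 t
    | Sum.inr ⟨i, b⟩ => decide (x.2 i = b)
  refine ⟨fun n => W (e n), ?_, ?_⟩
  · intro n
    show IsLocallyConstant (W (e n))
    rcases e n with (t | t) | ⟨i, b⟩
    · exact (IsLocallyConstant.iff_continuous _).2 (cont1 t)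
    · exact (IsLocallyConstant.iff_continuous _).2 (cont2 t)
    · apply lc_of_cl
      refine ⟨i + 1, fun x x' hx => ?_⟩
      show decide (x'.2 i = b) = decide (x.2 i = b)
      rw [hx.2 i (by omega)]
  · intro x x' h
    have h' : ∀ a, W a x = W a x' := by
      intro a
      obtain ⟨n, rfl⟩ := he a
      exact h n
    refine Prod.ext (Prod.ext ?_ ?_) ?_
    · apply Subtype.ext
      funext t
      exact h' (Sum.inl (Sum.inl t))
    · apply Subtype.ext
      funext t
      exact h' (Sum.inl (Sum.inr t))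
    · funext i
      have h1 : decide (x.2 i = x.2 i) = decide (x'.2 i = x.2 i) := h' (Sum.inr ⟨i, x.2 i⟩)
      rw [decide_eq_decide] at h1
      exact (h1.1 rfl).symm

/-- no double returns where the pattern is one -/
lemma zz_false (N : ℕ) (hN0 : (P 0).m ≤ N) (x : XS P) (n : ℕ)
    (h1 : x.1.1.1 (2 * ((N + n : ℕ) : ℤ)) = x.1.1.1 0)
    (h2 : x.1.2.1 (ell x.1.1.1 x.1.2.1 + 2 * ((N + n : ℕ) : ℤ)) =
      x.1.2.1 (ell x.1.1.1 x.1.2.1)) : zz P N x n = false := by
  classical
  show decide _ = false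
  rw [decide_eq_false_iff_not]
  rintro ⟨-, h3⟩
  obtain ⟨h4, h5⟩ := blk_spec hG hN (v := 2 * (N + n)) (by omega)
  have h6 := h3 (2 * ((N + n : ℕ) : ℤ)) (by omega) (by omega)
  rw [h1, add_comm, h2] at h6
  exact (ell_spec hG hN hW (y := x.1.1.1) x.1.2.2).2 h6.symm

end

end

end Pool.Agent.W681.RC
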