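import Pool.Agent.W661.RC.Stm2

/-! RC-PTB: spectral gap of the Markov operator. -/

set_option autoImplicit false

namespace Pool.Agent.W681.RC

open Pool.Agent.W661.RC

section rep

variable {H : Type} [NormedAddCommGroup H] [InnerProductSpace ℂ H] [CompleteSpace H]

/-- restriction of an operator to a stable subspace -/
noncomputable def rs (W : Submodule ℂ H) (a : H →L[ℂ] H) (ha : ∀ v ∈ W, a v ∈ W) : W →L[ℂ] W :=
  (a.comp W.subtypeL).codRestrict W (fun v => ha v v.2)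

theorem rs_apply (W : Submodule ℂ H) (a : H →L[ℂ] H) (ha : ∀ v ∈ W, a v ∈ W) (v : W) :
    ((rs W a ha v : W) : H) = a v := rfl

variable {F : Type} [Group F]

theorem inv_adj (ρ : F →* unitary (H →L[ℂ] H)) (w : F) :
    (ρ w⁻¹ : H →L[ℂ] H) = ContinuousLinearMap.adjoint (ρ w : H →L[ℂ] H) := by
  rw [map_inv, ← Unitary.star_eq_inv, Unitary.coe_star, ContinuousLinearMap.star_eq_adjoint]

theorem inner_inv (ρ : F →* unitary (H →L[ℂ] H)) (w : F) (x y : H) :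
    inner ℂ ((ρ w⁻¹ : H →L[ℂ] H) x) y = inner ℂ x ((ρ w : H →L[ℂ] H) y) := by
  rw [inv_adj, ContinuousLinearMap.adjoint_inner_left]

theorem mul_ap (ρ : F →* unitary (H →L[ℂ] H)) (a b : F) (x : H) :
    (ρ (a * b) : H →L[ℂ] H) x = (ρ a : H →L[ℂ] H) ((ρ b : H →L[ℂ] H) x) := by
  rw [map_mul]
  rfl

theorem one_ap (ρ : F →* unitary (H →L[ℂ] H)) (x : H) :
    (ρ 1 : H →L[ℂ] H) x = x := by
  rw [map_one]
  rfl

theorem norm_ap (ρ : F →* unitary (H →L[ℂ] H)) (a : F) (x : H) :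
    ‖(ρ a : H →L[ℂ] H) x‖ = ‖x‖ := by
  have h1 : inner ℂ ((ρ a : H →L[ℂ] H) x) ((ρ a : H →L[ℂ] H) x) = inner ℂ x x := by
    have h2 := inner_inv ρ a⁻¹ x ((ρ a : H →L[ℂ] H) x)
    rw [inv_inv] at h2
    rw [h2, ← mul_ap, inv_mul_cancel, one_ap]
  have h3 := congrArg Complex.re h1
  have e1 := inner_self_eq_norm_sq (𝕜 := ℂ) ((ρ a : H →L[ℂ] H) x)
  have e2 := inner_self_eq_norm_sq (𝕜 := ℂ) x
  have e3 : ‖(ρ a : H →L[ℂ] H) x‖ ^ 2 = ‖x‖ ^ 2 := by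
    rw [← e1, ← e2]
    exact h3
  exact (sq_eq_sq₀ (norm_nonneg _) (norm_nonneg _)).1 e3

theorem rs_star (ρ : F →* unitary (H →L[ℂ] H)) (W : Submodule ℂ H) [CompleteSpace W]
    (hW : ∀ w : F, ∀ v ∈ W, (ρ w : H →L[ℂ] H) v ∈ W) (w : F) :
    star (rs W (ρ w) (hW w)) = rs W (ρ w⁻¹) (hW w⁻¹) := by
  rw [ContinuousLinearMap.star_eq_adjoint]
  symm
  rw [ContinuousLinearMap.eq_adjoint_iff]
  intro x y
  rw [Submodule.coe_inner, Submodule.coe_inner, rs_apply, rs_apply]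
  exact inner_inv ρ w _ _

theorem rs_mul (ρ : F →* unitary (H →L[ℂ] H)) (W : Submodule ℂ H)
    (hW : ∀ w : F, ∀ v ∈ W, (ρ w : H →L[ℂ] H) v ∈ W) (a b : F) :
    rs W (ρ (a * b)) (hW (a * b)) = rs W (ρ a) (hW a) * rs W (ρ b) (hW b) := by
  ext v
  rw [rs_apply, mul_ap]
  rfl

theorem rs_one (ρ : F →* unitary (H →L[ℂ] H)) (W : Submodule ℂ H)
    (hW : ∀ w : F, ∀ v ∈ W, (ρ w : H →L[ℂ] H) v ∈ W) :
    rs W (ρ 1) (hW 1) = 1 := by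
  ext v
  rw [rs_apply, one_ap]
  rfl

theorem rs_congr (ρ : F →* unitary (H →L[ℂ] H)) (W : Submodule ℂ H)
    (hW : ∀ w : F, ∀ v ∈ W, (ρ w : H →L[ℂ] H) v ∈ W) (a b : F) (h : a = b) :
    rs W (ρ a) (hW a) = rs W (ρ b) (hW b) := by
  subst h
  rfl

/-- restriction of a representation to a stable subspace -/
noncomputable def res (ρ : F →* unitary (H →L[ℂ] H)) (W : Submodule ℂ H) [CompleteSpace W]
    (hW : ∀ w : F, ∀ v ∈ W, (ρ w : H →L[ℂ] H) v ∈ W) : F →* unitary (W →L[ℂ] W) where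
  toFun w := ⟨rs W (ρ w) (hW w), by
    rw [Unitary.mem_iff, rs_star, ← rs_mul, ← rs_mul,
      rs_congr ρ W hW (w⁻¹ * w) 1 (inv_mul_cancel w),
      rs_congr ρ W hW (w * w⁻¹) 1 (mul_inv_cancel w), rs_one]
    exact ⟨rfl, rfl⟩⟩
  map_one' := Subtype.ext (rs_one ρ W hW)
  map_mul' a b := Subtype.ext (rs_mul ρ W hW a b)

theorem res_apply (ρ : F →* unitary (H →L[ℂ] H)) (W : Submodule ℂ H) [CompleteSpace W]
    (hW : ∀ w : F, ∀ v ∈ W, (ρ w : H →L[ℂ] H) v ∈ W) (w : F) (v : W) :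
    (((res ρ W hW w : W →L[ℂ] W) v : W) : H) = (ρ w : H →L[ℂ] H) v := rfl

/-- the invariant vectors -/
def inv (ρ : F →* unitary (H →L[ℂ] H)) : Submodule ℂ H where
  carrier := {v | ∀ w, (ρ w : H →L[ℂ] H) v = v}
  add_mem' := by
    intro a b ha hb w
    rw [map_add, ha w, hb w]
  zero_mem' := by
    intro w
    rw [map_zero]
  smul_mem' := by
    intro c a ha w
    rw [map_smul, ha w]

theorem mem_inv (ρ : F →* unitary (H →L[ℂ] H)) (v : H) :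
    v ∈ inv ρ ↔ ∀ w, (ρ w : H →L[ℂ] H) v = v := Iff.rfl

theorem closed_inv (ρ : F →* unitary (H →L[ℂ] H)) : IsClosed ((inv ρ : Submodule ℂ H) : Set H) := by
  have : ((inv ρ : Submodule ℂ H) : Set H) = ⋂ w, {v | (ρ w : H →L[ℂ] H) v = v} := by
    ext v
    simp only [SetLike.mem_coe, mem_inv, Set.mem_iInter, Set.mem_ofPred_eq]
  rw [this]
  exact isClosed_iInter fun w => isClosed_eq (ρ w : H →L[ℂ] H).continuous continuous_id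

theorem stab_perp (ρ : F →* unitary (H →L[ℂ] H)) (w : F) (v : H) (hv : v ∈ (inv ρ)ᗮ) :
    (ρ w : H →L[ℂ] H) v ∈ (inv ρ)ᗮ := by
  rw [Submodule.mem_orthogonal] at hv ⊢
  intro u hu
  rw [← inner_inv, hu w⁻¹]
  exact hv u hu

end rep

section free

variable {k : ℕ} {H : Type} [NormedAddCommGroup H] [InnerProductSpace ℂ H] [CompleteSpace H]

/-- the average -/
noncomputable def AA (ρ : FreeGroup (Fin k) →* unitary (H →L[ℂ] H)) (x : H) : H :=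
  (1 / (2 * k + 1) : ℂ) • (x + ∑ s, ((ρ (FreeGroup.of s) : H →L[ℂ] H) x +
    (ρ (FreeGroup.of s)⁻¹ : H →L[ℂ] H) x))

theorem Mk_apply (ρ : FreeGroup (Fin k) →* unitary (H →L[ℂ] H)) (x : H) :
    Mk ρ x = (1 / 2 : ℂ) • (x + AA ρ x) := by
  have hk : (2 * (k : ℂ) + 1) ≠ 0 := by
    have h : ((2 * k + 1 : ℕ) : ℂ) ≠ 0 := Nat.cast_ne_zero.2 (Nat.succ_ne_zero (2 * k))
    push_cast at h
    exact h
  unfold Mk AA
  simp only [ContinuousLinearMap.add_apply, ContinuousLinearMap.smul_apply,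
    ContinuousLinearMap.one_apply, ContinuousLinearMap.sum_apply]
  have e : (1 / (2 * (2 * k + 1)) : ℂ) = (1 / 2) * (1 / (2 * k + 1)) := by
    field_simp
  rw [e, mul_smul, ← smul_add]

theorem norm_AA (ρ : FreeGroup (Fin k) →* unitary (H →L[ℂ] H)) (x : H) : ‖AA ρ x‖ ≤ ‖x‖ := by
  unfold AA
  rw [norm_smul]
  have h1 : ‖(1 / (2 * k + 1) : ℂ)‖ = 1 / (2 * k + 1) := by
    have : (1 / (2 * k + 1) : ℂ) = ((1 / (2 * k + 1) : ℝ) : ℂ) := by push_cast; rfl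
    rw [this, Complex.norm_real, Real.norm_of_nonneg (by positivity)]
  rw [h1]
  have h2 : ‖x + ∑ s, ((ρ (FreeGroup.of s) : H →L[ℂ] H) x +
      (ρ (FreeGroup.of s)⁻¹ : H →L[ℂ] H) x)‖ ≤ (2 * k + 1) * ‖x‖ := by
    refine (norm_add_le _ _).trans ?_
    have h3 : ‖∑ s, ((ρ (FreeGroup.of s) : H →L[ℂ] H) x +
      (ρ (FreeGroup.of s)⁻¹ : H →L[ℂ] H) x)‖ ≤ ∑ _s : Fin k, 2 * ‖x‖ := by
      refine norm_sum_le_of_le _ ?_
      intro s _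
      refine (norm_add_le _ _).trans ?_
      rw [norm_ap, norm_ap]
      linarith
    rw [Finset.sum_const, Finset.card_univ, Fintype.card_fin, nsmul_eq_mul] at h3
    linarith
  rw [one_div, inv_mul_le_iff₀ (by positivity)]
  exact h2

theorem norm_Mk (ρ : FreeGroup (Fin k) →* unitary (H →L[ℂ] H)) (x : H) : ‖Mk ρ x‖ ≤ ‖x‖ := by
  rw [Mk_apply, norm_smul]
  have h1 : ‖(1 / 2 : ℂ)‖ = 1 / 2 := by norm_num
  rw [h1]
  have := norm_add_le x (AA ρ x)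
  have := norm_AA ρ x
  linarith

theorem inner_AA (ρ : FreeGroup (Fin k) →* unitary (H →L[ℂ] H)) (x : H) :
    (inner ℂ x (x - AA ρ x)).re = (1 / (2 * k + 1)) *
      ∑ s, ‖(ρ (FreeGroup.of s) : H →L[ℂ] H) x - x‖ ^ 2 := by
  have hk : (0 : ℝ) < 2 * k + 1 := by positivity
  have h1 : ∀ s, ‖(ρ (FreeGroup.of s) : H →L[ℂ] H) x - x‖ ^ 2 =
      2 * ‖x‖ ^ 2 - 2 * (inner ℂ x ((ρ (FreeGroup.of s) : H →L[ℂ] H) x)).re := by
    intro s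
    rw [@norm_sub_sq ℂ, norm_ap, inner_re_symm]
    simp only [RCLike.re_to_complex]
    ring
  have h2 : ∀ s, (inner ℂ x ((ρ (FreeGroup.of s)⁻¹ : H →L[ℂ] H) x)).re =
      (inner ℂ x ((ρ (FreeGroup.of s) : H →L[ℂ] H) x)).re := by
    intro s
    have h3 := inner_inv ρ (FreeGroup.of s) x x
    have h4 := congrArg Complex.re h3
    have h5 := inner_re_symm (𝕜 := ℂ) x ((ρ (FreeGroup.of s)⁻¹ : H →L[ℂ] H) x)
    simp only [RCLike.re_to_complex] at h5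
    rw [h5, h4]
  have h3 : (inner ℂ x (AA ρ x)).re = (1 / (2 * k + 1)) * (‖x‖ ^ 2 +
      ∑ s, 2 * (inner ℂ x ((ρ (FreeGroup.of s) : H →L[ℂ] H) x)).re) := by
    unfold AA
    rw [inner_smul_right, inner_add_right, inner_sum]
    have e1 : (1 / (2 * k + 1) : ℂ) = ((1 / (2 * k + 1) : ℝ) : ℂ) := by push_cast; rfl
    rw [e1, Complex.re_ofReal_mul, Complex.add_re, Complex.re_sum]
    congr 2
    · have := inner_self_eq_norm_sq (𝕜 := ℂ) x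
      simpa using this
    · apply Finset.sum_congr rfl
      intro s _
      rw [inner_add_right, Complex.add_re, h2]
      ring
  have h4 : (inner ℂ x x).re = ‖x‖ ^ 2 := by
    have := inner_self_eq_norm_sq (𝕜 := ℂ) x
    simpa using this
  rw [inner_sub_right, Complex.sub_re, h3, h4]
  simp only [h1]
  rw [Finset.sum_sub_distrib, Finset.sum_const, Finset.card_univ, Fintype.card_fin, nsmul_eq_mul]
  field_simp
  ring

/-- the operator is a strict contraction -/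
theorem Mk_contr (ρ : FreeGroup (Fin k) →* unitary (H →L[ℂ] H)) (c : ℝ) (hc : 0 < c) (x : H)
    (hx : c * ‖x‖ ^ 2 ≤ ∑ s, ‖(ρ (FreeGroup.of s) : H →L[ℂ] H) x - x‖ ^ 2) :
    ‖Mk ρ x‖ ^ 2 ≤ (1 - (c / (2 * k + 1)) ^ 2 / 4) * ‖x‖ ^ 2 := by
  have hk : (0 : ℝ) < 2 * k + 1 := by positivity
  have h1 : ‖Mk ρ x‖ ^ 2 = 1 / 4 * ‖x + AA ρ x‖ ^ 2 := by
    rw [Mk_apply, norm_smul, mul_pow]
    norm_num
  have h2 := parallelogram_law_with_norm ℂ x (AA ρ x)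
  have h3 := norm_AA ρ x
  have h4 : c / (2 * k + 1) * ‖x‖ ^ 2 ≤ ‖x‖ * ‖x - AA ρ x‖ := by
    calc c / (2 * k + 1) * ‖x‖ ^ 2 = (1 / (2 * k + 1)) * (c * ‖x‖ ^ 2) := by ring
      _ ≤ (1 / (2 * k + 1)) * ∑ s, ‖(ρ (FreeGroup.of s) : H →L[ℂ] H) x - x‖ ^ 2 :=
        mul_le_mul_of_nonneg_left hx (by positivity)
      _ = (inner ℂ x (x - AA ρ x)).re := (inner_AA ρ x).symm
      _ ≤ ‖inner ℂ x (x - AA ρ x)‖ := Complex.re_le_norm _
      _ ≤ _ := norm_inner_le_norm _ _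
  have h5 : c / (2 * k + 1) * ‖x‖ ≤ ‖x - AA ρ x‖ := by
    rcases (norm_nonneg x).eq_or_lt with h0 | h0
    · rw [← h0, mul_zero]
      exact norm_nonneg _
    · have : ‖x‖ * (c / (2 * k + 1) * ‖x‖) ≤ ‖x‖ * ‖x - AA ρ x‖ := by
        calc ‖x‖ * (c / (2 * k + 1) * ‖x‖) = c / (2 * k + 1) * ‖x‖ ^ 2 := by ring
          _ ≤ _ := h4
      exact le_of_mul_le_mul_left this h0
  have h6 : (c / (2 * k + 1) * ‖x‖) ^ 2 ≤ ‖x - AA ρ x‖ ^ 2 :=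
    pow_le_pow_left₀ (by positivity) h5 2
  have h7 : ‖AA ρ x‖ ^ 2 ≤ ‖x‖ ^ 2 := pow_le_pow_left₀ (norm_nonneg _) h3 2
  rw [h1]
  nlinarith

theorem Mk_inv (ρ : FreeGroup (Fin k) →* unitary (H →L[ℂ] H)) (x : H) (hx : x ∈ inv ρ) :
    Mk ρ x = x := by
  rw [Mk_apply]
  have h1 : AA ρ x = x := by
    unfold AA
    have : ∀ s : Fin k, (ρ (FreeGroup.of s) : H →L[ℂ] H) x + (ρ (FreeGroup.of s)⁻¹ : H →L[ℂ] H) x =
        (2 : ℂ) • x := by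
      intro s
      rw [hx, hx, two_smul]
    simp only [this]
    rw [Finset.sum_const, Finset.card_univ, Fintype.card_fin, ← Nat.cast_smul_eq_nsmul ℂ, smul_smul]
    have e : x + ((k : ℂ) * 2) • x = (2 * (k : ℂ) + 1) • x := by
      rw [add_smul, one_smul, add_comm, mul_comm]
    rw [e, smul_smul]
    have hk : (2 * (k : ℂ) + 1) ≠ 0 := by
      have h : ((2 * k + 1 : ℕ) : ℂ) ≠ 0 := Nat.cast_ne_zero.2 (Nat.succ_ne_zero (2 * k))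
      push_cast at h
      exact h
    rw [one_div, inv_mul_cancel₀ hk, one_smul]
  rw [h1, ← two_smul ℂ x, smul_smul]
  norm_num

theorem Mk_stab (ρ : FreeGroup (Fin k) →* unitary (H →L[ℂ] H)) (x : H) (hx : x ∈ (inv ρ)ᗮ) :
    Mk ρ x ∈ (inv ρ)ᗮ := by
  rw [Mk_apply]
  apply Submodule.smul_mem
  apply Submodule.add_mem _ hx
  unfold AA
  apply Submodule.smul_mem
  apply Submodule.add_mem _ hx
  apply Submodule.sum_mem
  intro s _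
  exact Submodule.add_mem _ (stab_perp ρ _ x hx) (stab_perp ρ _ x hx)

/-- gap on the complement of the invariant vectors -/
def GapP (ρ : FreeGroup (Fin k) →* unitary (H →L[ℂ] H)) (c : ℝ) : Prop :=
  ∀ x ∈ (inv ρ)ᗮ, c * ‖x‖ ^ 2 ≤ ∑ s, ‖(ρ (FreeGroup.of s) : H →L[ℂ] H) x - x‖ ^ 2

theorem Mk_pow (ρ : FreeGroup (Fin k) →* unitary (H →L[ℂ] H)) (c q : ℝ) (hc : 0 < c)
    (hq0 : 0 ≤ q) (hq : 1 - (c / (2 * k + 1)) ^ 2 / 4 ≤ q) (hg : GapP ρ c) (K : ℕ) :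
    ∀ x ∈ (inv ρ)ᗮ, (Mk ρ ^ K) x ∈ (inv ρ)ᗮ ∧ ‖(Mk ρ ^ K) x‖ ^ 2 ≤ q ^ K * ‖x‖ ^ 2 ∧
      ‖(Mk ρ ^ K) x‖ ≤ ‖x‖ := by
  induction K with
  | zero =>
    intro x hx
    rw [pow_zero, pow_zero, one_mul]
    exact ⟨hx, le_rfl, le_rfl⟩
  | succ K ih =>
    intro x hx
    obtain ⟨h1, h2, h3⟩ := ih x hx
    have e : (Mk ρ ^ (K + 1)) x = Mk ρ ((Mk ρ ^ K) x) := by
      rw [pow_succ']
      rfl
    rw [e]
    refine ⟨Mk_stab ρ _ h1, ?_, (norm_Mk ρ _).trans h3⟩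
    have h4 := Mk_contr ρ c hc _ (hg _ h1)
    calc ‖Mk ρ ((Mk ρ ^ K) x)‖ ^ 2
        ≤ (1 - (c / (2 * k + 1)) ^ 2 / 4) * ‖(Mk ρ ^ K) x‖ ^ 2 := h4
      _ ≤ q * ‖(Mk ρ ^ K) x‖ ^ 2 := mul_le_mul_of_nonneg_right hq (by positivity)
      _ ≤ q * (q ^ K * ‖x‖ ^ 2) := mul_le_mul_of_nonneg_left h2 hq0
      _ = q ^ (K + 1) * ‖x‖ ^ 2 := by ring

theorem Mk_pow_inv (ρ : FreeGroup (Fin k) →* unitary (H →L[ℂ] H)) (K : ℕ) (x : H)
    (hx : x ∈ inv ρ) : (Mk ρ ^ K) x = x := by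
  induction K with
  | zero => rfl
  | succ K ih =>
    have e : (Mk ρ ^ (K + 1)) x = Mk ρ ((Mk ρ ^ K) x) := by
      rw [pow_succ']
      rfl
    rw [e, ih, Mk_inv ρ x hx]

theorem smo (ρ : FreeGroup (Fin k) →* unitary (H →L[ℂ] H)) (c q η C : ℝ) (hc : 0 < c)
    (hq0 : 0 ≤ q) (hq : 1 - (c / (2 * k + 1)) ^ 2 / 4 ≤ q) (hg : GapP ρ c) (K : ℕ)
    (hη : 0 < η) (hC : 4 / c ≤ C) (hK : 4 * k * q ^ K ≤ η) (ξ : H) : Smo ρ K C η ξ := by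
  haveI : CompleteSpace (inv ρ) := (closed_inv ρ).completeSpace_coe
  obtain ⟨ξ₀, h0, ξ₁, h1, hξ⟩ := (inv ρ).exists_add_mem_mem_orthogonal ξ
  obtain ⟨p1, p2, p3⟩ := Mk_pow ρ c q hc hq0 hq hg K ξ₁ h1
  have e1 : (Mk ρ ^ K) ξ = ξ₀ + (Mk ρ ^ K) ξ₁ := by
    rw [hξ, map_add, Mk_pow_inv ρ K ξ₀ h0]
  have hn : ‖ξ₁‖ ^ 2 ≤ ‖ξ‖ ^ 2 := by
    have h2 : inner ℂ ξ₀ ξ₁ = 0 := (Submodule.mem_orthogonal _ _).1 h1 ξ₀ h0
    have h3 := norm_add_sq_eq_norm_sq_add_norm_sq_of_inner_eq_zero ξ₀ ξ₁ h2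
    rw [hξ]
    nlinarith [sq_nonneg ‖ξ₀‖]
  constructor
  · have h2 : ∀ s, ‖(ρ (FreeGroup.of s) : H →L[ℂ] H) ((Mk ρ ^ K) ξ) - (Mk ρ ^ K) ξ‖ ^ 2 ≤
        4 * ‖(Mk ρ ^ K) ξ₁‖ ^ 2 := by
      intro s
      have h3 : (ρ (FreeGroup.of s) : H →L[ℂ] H) ((Mk ρ ^ K) ξ) - (Mk ρ ^ K) ξ =
          (ρ (FreeGroup.of s) : H →L[ℂ] H) ((Mk ρ ^ K) ξ₁) - (Mk ρ ^ K) ξ₁ := by
        rw [e1, map_add, h0]
        abel
      rw [h3]
      have h4 := norm_sub_le ((ρ (FreeGroup.of s) : H →L[ℂ] H) ((Mk ρ ^ K) ξ₁)) ((Mk ρ ^ K) ξ₁)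
      rw [norm_ap] at h4
      have h5 := pow_le_pow_left₀ (norm_nonneg _) h4 2
      calc _ ≤ _ := h5
        _ = _ := by ring
    calc ∑ s, ‖(ρ (FreeGroup.of s) : H →L[ℂ] H) ((Mk ρ ^ K) ξ) - (Mk ρ ^ K) ξ‖ ^ 2
        ≤ ∑ _s : Fin k, 4 * ‖(Mk ρ ^ K) ξ₁‖ ^ 2 := Finset.sum_le_sum fun s _ => h2 s
      _ = k * (4 * ‖(Mk ρ ^ K) ξ₁‖ ^ 2) := by
        rw [Finset.sum_const, Finset.card_univ, Fintype.card_fin, nsmul_eq_mul]
      _ ≤ k * (4 * (q ^ K * ‖ξ₁‖ ^ 2)) := by gcongr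
      _ = (4 * k * q ^ K) * ‖ξ₁‖ ^ 2 := by ring
      _ ≤ η * ‖ξ₁‖ ^ 2 := mul_le_mul_of_nonneg_right hK (by positivity)
      _ ≤ η * ‖ξ‖ ^ 2 := mul_le_mul_of_nonneg_left hn hη.le
  · have h2 : (Mk ρ ^ K) ξ - ξ = (Mk ρ ^ K) ξ₁ - ξ₁ := by
      rw [e1, hξ]
      abel
    have h3 : ‖(Mk ρ ^ K) ξ - ξ‖ ^ 2 ≤ 4 * ‖ξ₁‖ ^ 2 := by
      rw [h2]
      have h4 := norm_sub_le ((Mk ρ ^ K) ξ₁) ξ₁
      have h6 : ‖(Mk ρ ^ K) ξ₁ - ξ₁‖ ≤ 2 * ‖ξ₁‖ := by linarith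
      have h5 := pow_le_pow_left₀ (norm_nonneg _) h6 2
      calc _ ≤ _ := h5
        _ = _ := by ring
    have h4 := hg ξ₁ h1
    have h5 : ∀ s, ‖(ρ (FreeGroup.of s) : H →L[ℂ] H) ξ₁ - ξ₁‖ ^ 2 =
        ‖(ρ (FreeGroup.of s) : H →L[ℂ] H) ξ - ξ‖ ^ 2 := by
      intro s
      congr 2
      rw [hξ, map_add, h0]
      abel
    rw [Finset.sum_congr rfl (fun s _ => h5 s)] at h4
    have h6 : 4 * ‖ξ₁‖ ^ 2 ≤ 4 / c * ∑ s, ‖(ρ (FreeGroup.of s) : H →L[ℂ] H) ξ - ξ‖ ^ 2 := by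
      calc 4 * ‖ξ₁‖ ^ 2 = 4 / c * (c * ‖ξ₁‖ ^ 2) := by field_simp
        _ ≤ _ := mul_le_mul_of_nonneg_left h4 (by positivity)
    have h7 : 4 / c * ∑ s, ‖(ρ (FreeGroup.of s) : H →L[ℂ] H) ξ - ξ‖ ^ 2 ≤
        C * ∑ s, ‖(ρ (FreeGroup.of s) : H →L[ℂ] H) ξ - ξ‖ ^ 2 :=
      mul_le_mul_of_nonneg_right hC (Finset.sum_nonneg fun s _ => by positivity)
    have h8 : 0 ≤ η * ‖ξ‖ ^ 2 := by positivity
    linarith

end free

theorem main (hA : PtaP) : PtbP := by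
  intro G _ k γ hT hγ
  obtain ⟨c, hc, hG⟩ := hA G k γ hT hγ
  refine ⟨max 1 (4 / c), le_max_left _ _, ?_⟩
  intro η hη
  set q : ℝ := max 0 (1 - (c / (2 * k + 1)) ^ 2 / 4) with hq
  have hq0 : 0 ≤ q := le_max_left _ _
  have hq1 : q < 1 := by
    apply max_lt one_pos
    have : 0 < (c / (2 * k + 1)) ^ 2 := by positivity
    linarith
  obtain ⟨K, hK⟩ := exists_pow_lt_of_lt_one (show 0 < η / (4 * k + 1) by positivity) hq1
  refine ⟨K, ?_⟩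
  intro H _ _ _ ρ hρ ξ
  apply smo ρ c q η _ hc hq0 (le_max_right _ _) _ K hη (le_max_right _ _) _ ξ
  · -- the gap
    intro x hx
    haveI : CompleteSpace (inv ρ) := (closed_inv ρ).completeSpace_coe
    set ρW := res ρ (inv ρ)ᗮ (stab_perp ρ) with hρW
    have hker : γ.ker ≤ ρW.ker := by
      intro w hw
      rw [MonoidHom.mem_ker] at hw ⊢
      have h1 := hρ w hw
      apply Subtype.ext
      ext v
      have h2 := res_apply ρ (inv ρ)ᗮ (stab_perp ρ) w v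
      rw [hρW, h2, h1]
      rfl
    set π := γ.liftOfSurjective hγ ⟨ρW, hker⟩ with hπ
    have hπγ : ∀ w, π (γ w) = ρW w := by
      intro w
      exact MonoidHom.liftOfRightInverse_comp_apply γ _ (Function.rightInverse_surjInv hγ)
        ⟨ρW, hker⟩ w
    have h3 := hG ((inv ρ)ᗮ : Submodule ℂ H) π (by
      intro v hv
      have h4 : (v : H) ∈ inv ρ := by
        intro w
        have h5 := hv (γ w)
        rw [hπγ] at h5
        have h6 := congrArg (fun z : ((inv ρ)ᗮ : Submodule ℂ H) => (z : H)) h5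
        exact h6
      have h5 : inner ℂ (v : H) (v : H) = 0 := (Submodule.mem_orthogonal _ _).1 v.2 v h4
      exact Subtype.ext (inner_self_eq_zero.1 h5)) ⟨x, hx⟩
    simp only [hπγ] at h3
    exact h3
  · have h1 : 4 * k * q ^ K ≤ (4 * k + 1) * (η / (4 * k + 1)) := by
      have h2 : 0 ≤ q ^ K := by positivity
      have h3 : 0 ≤ (k : ℝ) := by positivity
      calc 4 * k * q ^ K ≤ (4 * k + 1) * q ^ K := by nlinarith
        _ ≤ (4 * k + 1) * (η / (4 * k + 1)) := mul_le_mul_of_nonneg_left hK.le (by positivity)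
    rwa [mul_div_cancel₀ _ (by positivity)] at h1

end Pool.Agent.W681.RC
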